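import Mathlib
import Pool.Agent.H387R2.VorDefs

/-!
# Definitions for the one-sided (negative) large values of the error term of the divisor problem

`Ed (R)` (in `H387R2.VorDefs`) is the normalised error term `Δ(R²)/√R`.
-/

open MeasureTheory Filter Topology
open Pool.Agent.H387R2.Vor

namespace Pool.Agent.H383.OM

/-- the phase factor `e^{-iπ/4}` -/
noncomputable def om : ℂ := Complex.exp (-((Real.pi / 4 : ℝ) : ℂ) * Complex.I)

/-- the average of `cos (4 π z V + π/4)` where `V = v - U₁ - ... - Uₙ`, the `Uᵢ` uniform in `[0, δ]` -/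
noncomputable def Cn (δ : ℝ) (n : ℕ) (z v : ℝ) : ℝ := (om * ex (-(2 * z * v)) * cf (2 * z * δ) ^ n).re

/-- the weighted integral -/
noncomputable def Qn (δ : ℝ) (n : ℕ) (σ v : ℝ) : ℝ :=
  ∫ z in Set.Ioi (0:ℝ), 4 * (Real.log z + Real.eulerMascheroniConstant) * z ^ (-(1/2) : ℝ) *
    Real.exp (-(σ * z)) * Cn δ n z v

end Pool.Agent.H383.OM
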