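import Mathlib
import Pool.Agent.H383.OM.Defs

open MeasureTheory Filter Topology
open Pool.Agent.H387R2.Vor

namespace Pool.Agent.H383.OM

lemma norm_ex (y : ℝ) : ‖ex y‖ = 1 := by
  unfold ex
  exact Complex.norm_exp_ofReal_mul_I _

lemma norm_om : ‖om‖ = 1 := by
  unfold om
  rw [show (-((Real.pi / 4 : ℝ) : ℂ) * Complex.I) = ((-(Real.pi/4) : ℝ) : ℂ) * Complex.I by push_cast; ring]
  exact Complex.norm_exp_ofReal_mul_I _

lemma ex_add (x y : ℝ) : ex (x + y) = ex x * ex y := by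
  unfold ex
  rw [← Complex.exp_add]
  congr 1
  push_cast; ring

lemma ex_zero : ex 0 = 1 := by unfold ex; simp

lemma ex_int (k : ℤ) : ex (k : ℝ) = 1 := by
  unfold ex
  rw [show (((2 * Real.pi * (k:ℝ) : ℝ) : ℂ) * Complex.I) = (k : ℂ) * (2 * Real.pi * Complex.I) by push_cast; ring]
  exact Complex.exp_int_mul_two_pi_mul_I k

lemma ex_cont : Continuous ex := by unfold ex; fun_prop

lemma ex_sub_one_le (y : ℝ) : ‖ex y - 1‖ ≤ 2 * Real.pi * |y| := by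
  unfold ex
  rw [mul_comm]
  refine (Real.norm_exp_I_mul_ofReal_sub_one_le).trans ?_
  rw [Real.norm_eq_abs, abs_mul, abs_of_pos (by positivity : (0:ℝ) < 2 * Real.pi)]

lemma ex_near {y ε : ℝ} (k : ℤ) (h : |y - k| ≤ ε) : ‖ex y - 1‖ ≤ 2 * Real.pi * ε := by
  have h1 : ex y = ex (y - k) := by
    rw [show y = (y - k) + (k:ℝ) by ring, ex_add, ex_int, mul_one]
    congr 1; ring
  rw [h1]
  refine (ex_sub_one_le _).trans ?_
  have := Real.pi_pos
  gcongr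

lemma cf_norm (y : ℝ) : ‖cf y‖ = ‖ex y - 1‖ / (2 * Real.pi * |y|) := by
  unfold cf
  rw [norm_div, norm_mul, Complex.norm_I, mul_one, Complex.norm_real, Real.norm_eq_abs, abs_mul,
    abs_of_pos (by positivity : (0:ℝ) < 2 * Real.pi)]

lemma cf_le_one (y : ℝ) : ‖cf y‖ ≤ 1 := by
  rw [cf_norm]
  rcases eq_or_ne y 0 with h | h
  · subst h; simp
  · rw [div_le_one (by have := Real.pi_pos; have := abs_pos.mpr h; positivity)]
    exact ex_sub_one_le y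

lemma cf_le {y : ℝ} (hy : 0 < y) : ‖cf y‖ ≤ 1 / (Real.pi * y) := by
  rw [cf_norm, abs_of_pos hy]
  have hpi := Real.pi_pos
  have h1 : ‖ex y - 1‖ ≤ 2 := by
    calc ‖ex y - 1‖ ≤ ‖ex y‖ + ‖(1:ℂ)‖ := norm_sub_le _ _
      _ = 2 := by rw [norm_ex, norm_one]; norm_num
  rw [div_le_div_iff₀ (by positivity) (by positivity)]
  nlinarith [mul_pos hpi hy]

lemma cf_int {a δ : ℝ} (ha : a ≠ 0) (hδ : 0 < δ) : (1 / (δ:ℂ)) * ∫ u in (0:ℝ)..δ, ex (a * u) = cf (a * δ) := by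
  have h1 : (((2 * Real.pi * a : ℝ) : ℂ) * Complex.I) ≠ 0 := by
    have := Real.pi_pos
    refine mul_ne_zero ?_ Complex.I_ne_zero
    exact_mod_cast (by positivity : (2 * Real.pi * a) ≠ 0)
  have h2 : (fun u : ℝ => ex (a * u)) = fun u : ℝ => Complex.exp ((((2 * Real.pi * a : ℝ) : ℂ) * Complex.I) * (u:ℂ)) := by
    funext u
    unfold ex
    congr 1
    push_cast; ring
  rw [h2, integral_exp_mul_complex h1]
  unfold cf ex
  simp only [Complex.ofReal_zero, mul_zero, Complex.exp_zero]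
  have h3 : (δ:ℂ) ≠ 0 := by exact_mod_cast hδ.ne'
  have h4 : (((2 * Real.pi * (a * δ) : ℝ) : ℂ) * Complex.I) = (((2 * Real.pi * a : ℝ) : ℂ) * Complex.I) * δ := by
    push_cast; ring
  rw [h4]
  field_simp

lemma abs_Cn_le (δ : ℝ) (n : ℕ) (z v : ℝ) : |Cn δ n z v| ≤ ‖cf (2 * z * δ)‖ ^ n := by
  unfold Cn
  refine (Complex.abs_re_le_norm _).trans ?_
  rw [norm_mul, norm_mul, norm_om, norm_ex, norm_pow]
  simp

lemma abs_Cn_le_one (δ : ℝ) (n : ℕ) (z v : ℝ) : |Cn δ n z v| ≤ 1 :=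
  (abs_Cn_le δ n z v).trans (pow_le_one₀ (norm_nonneg _) (cf_le_one _))

end Pool.Agent.H383.OM
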