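import Mathlib
import Pool.Agent.H383.OM.Cf
import Pool.Agent.H383.DivF

open MeasureTheory Filter Topology
open Pool.Agent.H387R2.Vor
open Pool.Agent.H383.Div (Ed' Ed'_int Ed'_bound Av Av_eq)

namespace Pool.Agent.H383.OM

/-- `Ed'` averaged `n` times over windows of length `δ` -/
noncomputable def An (δ : ℝ) : ℕ → ℝ → ℝ
  | 0 => Ed'
  | (n+1) => fun R => (1/δ) * ∫ u in (0:ℝ)..δ, An δ n (R + u)

lemma An_int (δ : ℝ) (n : ℕ) : ∀ a b : ℝ, IntervalIntegrable (An δ n) volume a b := by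
  induction n with
  | zero => intro a b; exact Ed'_int a b
  | succ n ih =>
    intro a b
    have h1 : (An δ (n+1)) = fun R => (1/δ) * ((∫ t in (0:ℝ)..(R + δ), An δ n t) - ∫ t in (0:ℝ)..R, An δ n t) := by
      funext R
      change (1/δ) * (∫ u in (0:ℝ)..δ, An δ n (R + u)) = _
      rw [intervalIntegral.integral_comp_add_left (fun t => An δ n t) R, add_zero,
        intervalIntegral.integral_interval_sub_left (ih _ _) (ih _ _)]
    rw [h1]
    apply Continuous.intervalIntegrable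
    have h2 := intervalIntegral.continuous_primitive (μ := volume) ih 0
    apply continuous_const.mul
    apply Continuous.sub
    · exact h2.comp (by fun_prop)
    · exact h2

lemma An_int' (δ : ℝ) (n : ℕ) (R a b : ℝ) : IntervalIntegrable (fun u => An δ n (R + u)) volume a b := by
  have h := (An_int δ n (R + a) (R + b)).comp_add_left R
  simpa using h

lemma An_lower {δ c : ℝ} (hδ : 0 < δ) (n : ℕ) : ∀ R : ℝ,
    (∀ s, 0 ≤ s → s ≤ n * δ → c ≤ Ed' (R + s)) → c ≤ An δ n R := by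
  induction n with
  | zero =>
    intro R h
    have := h 0 le_rfl (by simp)
    rw [add_zero] at this
    exact this
  | succ n ih =>
    intro R h
    change c ≤ (1/δ) * (∫ u in (0:ℝ)..δ, An δ n (R + u))
    have h4 : ∫ u in (0:ℝ)..δ, c ≤ ∫ u in (0:ℝ)..δ, An δ n (R + u) := by
      apply intervalIntegral.integral_mono_on hδ.le (by simp) (An_int' δ n R 0 δ)
      intro u hu
      apply ih
      intro s hs1 hs2
      have := h (u + s) (by linarith [hu.1]) (by push_cast; nlinarith [hu.2])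
      rwa [← add_assoc] at this
    rw [intervalIntegral.integral_const, smul_eq_mul, sub_zero] at h4
    rw [one_div, ← div_eq_inv_mul, le_div_iff₀ hδ]
    linarith

/-- the term of the averaged series -/
noncomputable def tn (δ : ℝ) (n : ℕ) (R : ℝ) (m : ℕ) : ℝ :=
  dv m * (m : ℝ) ^ (-(3 / 4) : ℝ) * (1 / (Real.pi * √2)) *
    (om * ex (2 * √(m : ℝ) * R) * cf (2 * √(m : ℝ) * δ) ^ n).re

/-- the majorant -/
noncomputable def mj (δ : ℝ) (m : ℕ) : ℝ := dv m * (m : ℝ) ^ (-(5 / 4) : ℝ) * (1 / δ^2)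

lemma mj_summable (δ : ℝ) : Summable (mj δ) := by
  unfold mj
  exact (Pool.Agent.H387R2.Vor.summable_dv).mul_right _

lemma norm_tc (δ : ℝ) (n : ℕ) (R : ℝ) (m : ℕ) :
    ‖om * ex (2 * √(m : ℝ) * R) * cf (2 * √(m : ℝ) * δ) ^ n‖ = ‖cf (2 * √(m : ℝ) * δ)‖ ^ n := by
  rw [norm_mul, norm_mul, norm_om, norm_ex, norm_pow]
  simp

lemma abs_tn_le' (δ : ℝ) (n : ℕ) (R : ℝ) (m : ℕ) : |tn δ n R m| ≤
    dv m * (m : ℝ) ^ (-(3 / 4) : ℝ) * ‖cf (2 * √(m : ℝ) * δ)‖ ^ n := by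
  unfold tn
  have hd := Pool.Agent.H383.Div.dv_nonneg m
  rw [abs_mul, abs_mul, abs_of_nonneg (by positivity : 0 ≤ dv m * (m : ℝ) ^ (-(3 / 4) : ℝ))]
  have hpi := Real.pi_gt_three
  have h2 : 1 ≤ √2 := Real.one_le_sqrt.mpr (by norm_num)
  have h3 : |1 / (Real.pi * √2)| ≤ 1 := by
    rw [abs_of_pos (by positivity), div_le_one (by positivity)]; nlinarith
  have h4 := Complex.abs_re_le_norm (om * ex (2 * √(m : ℝ) * R) * cf (2 * √(m : ℝ) * δ) ^ n)
  rw [norm_tc] at h4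
  calc _ ≤ dv m * (m : ℝ) ^ (-(3 / 4) : ℝ) * 1 * ‖cf (2 * √(m : ℝ) * δ)‖ ^ n := by gcongr
    _ = _ := by ring

lemma cf_two {δ : ℝ} (hδ : 0 < δ) {m : ℕ} (hm : 1 ≤ m) : ‖cf (2 * √(m : ℝ) * δ)‖ ^ 2 ≤ (m:ℝ) ^ (-1:ℝ) * (1 / δ^2) := by
  have hm' : (1:ℝ) ≤ m := by exact_mod_cast hm
  have hs : 0 < √(m:ℝ) := Real.sqrt_pos.mpr (by linarith)
  have hpi := Real.pi_gt_three
  have h1 := cf_le (y := 2 * √(m:ℝ) * δ) (by positivity)
  have h2 : 1 / (Real.pi * (2 * √(m:ℝ) * δ)) ≤ 1 / (√(m:ℝ) * δ) := by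
    apply one_div_le_one_div_of_le (by positivity)
    have : 0 < √(m:ℝ) * δ := by positivity
    nlinarith
  calc ‖cf (2 * √(m : ℝ) * δ)‖ ^ 2 ≤ (1 / (√(m:ℝ) * δ)) ^ 2 := by
        apply pow_le_pow_left₀ (norm_nonneg _) (h1.trans h2)
    _ = (m:ℝ) ^ (-1:ℝ) * (1 / δ^2) := by
        rw [Real.rpow_neg_one, div_pow, mul_pow, Real.sq_sqrt (by linarith)]
        field_simp

lemma abs_tn_le {δ : ℝ} (hδ : 0 < δ) {n : ℕ} (hn : 2 ≤ n) (R : ℝ) (m : ℕ) : |tn δ n R m| ≤ mj δ m := by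
  refine (abs_tn_le' δ n R m).trans ?_
  unfold mj
  rcases Nat.eq_zero_or_pos m with h0 | h0
  · subst h0; simp [dv]
  · have hd := Pool.Agent.H383.Div.dv_nonneg m
    have hm' : (1:ℝ) ≤ m := by exact_mod_cast h0
    have hm0 : (0:ℝ) < m := by linarith
    have h1 : ‖cf (2 * √(m : ℝ) * δ)‖ ^ n ≤ (m:ℝ) ^ (-1:ℝ) * (1 / δ^2) :=
      (pow_le_pow_of_le_one (norm_nonneg _) (cf_le_one _) hn).trans (cf_two hδ h0)
    calc dv m * (m : ℝ) ^ (-(3 / 4) : ℝ) * ‖cf (2 * √(m : ℝ) * δ)‖ ^ n ≤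
        dv m * (m : ℝ) ^ (-(3 / 4) : ℝ) * ((m:ℝ) ^ (-1:ℝ) * (1 / δ^2)) := by gcongr
      _ = dv m * ((m : ℝ) ^ (-(3 / 4) : ℝ) * (m:ℝ) ^ (-1:ℝ)) * (1 / δ^2) := by ring
      _ = dv m * (m : ℝ) ^ (-(7 / 4) : ℝ) * (1 / δ^2) := by rw [← Real.rpow_add hm0]; norm_num
      _ ≤ _ := by
        have : (m : ℝ) ^ (-(7 / 4) : ℝ) ≤ (m : ℝ) ^ (-(5 / 4) : ℝ) :=
          Real.rpow_le_rpow_of_exponent_le hm' (by norm_num)
        gcongr

lemma tn_summable {δ : ℝ} (hδ : 0 < δ) {n : ℕ} (hn : 2 ≤ n) (R : ℝ) : Summable (tn δ n R) :=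
  Summable.of_norm_bounded (mj_summable δ) (fun m => by rw [Real.norm_eq_abs]; exact abs_tn_le hδ hn R m)

lemma tn_cont (δ : ℝ) (n : ℕ) (m : ℕ) : Continuous (fun R => tn δ n R m) := by
  unfold tn
  have h1 : Continuous (fun R : ℝ => ex (2 * √(m:ℝ) * R)) := ex_cont.comp (by fun_prop)
  apply continuous_const.mul
  apply Complex.continuous_re.comp
  exact (continuous_const.mul h1).mul continuous_const

lemma tn_avg {δ : ℝ} (hδ : 0 < δ) (n : ℕ) (R : ℝ) (m : ℕ) :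
    (1/δ) * (∫ u in (0:ℝ)..δ, tn δ n (R + u) m) = tn δ (n+1) R m := by
  rcases Nat.eq_zero_or_pos m with h0 | h0
  · subst h0
    simp [tn, dv]
  · have hm' : (1:ℝ) ≤ m := by exact_mod_cast h0
    have hs : 0 < √(m:ℝ) := Real.sqrt_pos.mpr (by linarith)
    set K : ℝ := dv m * (m : ℝ) ^ (-(3 / 4) : ℝ) * (1 / (Real.pi * √2)) with hK
    set A : ℂ := om * ex (2 * √(m : ℝ) * R) * cf (2 * √(m : ℝ) * δ) ^ n with hA
    have h1 : ∀ u : ℝ, tn δ n (R + u) m = K * (A * ex (2 * √(m:ℝ) * u)).re := by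
      intro u
      unfold tn
      rw [← hK, hA, show 2 * √(m:ℝ) * (R + u) = 2 * √(m:ℝ) * R + 2 * √(m:ℝ) * u by ring, ex_add]
      congr 2
      ring
    have h2 : ∫ u in (0:ℝ)..δ, tn δ n (R + u) m = K * (A * ∫ u in (0:ℝ)..δ, ex (2 * √(m:ℝ) * u)).re := by
      rw [← intervalIntegral.integral_const_mul, intervalIntegral.integral_congr (fun u _ => h1 u),
        intervalIntegral.integral_const_mul]
      congr 1
      have hc : Continuous (fun u : ℝ => A * ex (2 * √(m:ℝ) * u)) :=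
        continuous_const.mul (ex_cont.comp (by fun_prop))
      have := Complex.reCLM.intervalIntegral_comp_comm (hc.intervalIntegrable (μ := volume) 0 δ)
      simpa using this
    have h3 := cf_int (a := 2 * √(m:ℝ)) (by positivity) hδ
    rw [h2]
    unfold tn
    have e0 : om * ex (2 * √(m : ℝ) * R) * cf (2 * √(m : ℝ) * δ) ^ (n+1) = A * cf (2 * √(m:ℝ) * δ) := by
      rw [hA, pow_succ]; ring
    rw [← hK, e0, ← h3]
    have e : (A * ((1 / (δ:ℂ)) * ∫ u in (0:ℝ)..δ, ex (2 * √(m:ℝ) * u))) =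
        ((1 / δ : ℝ) : ℂ) * (A * ∫ u in (0:ℝ)..δ, ex (2 * √(m:ℝ) * u)) := by
      push_cast; ring
    rw [e, Complex.re_ofReal_mul]
    ring

lemma tsum_avg {δ : ℝ} (hδ : 0 < δ) {n : ℕ} (hn : 2 ≤ n) (R : ℝ) :
    (1/δ) * (∫ u in (0:ℝ)..δ, ∑' m, tn δ n (R + u) m) = ∑' m, tn δ (n+1) R m := by
  have h1 : ∑' m, ∫ u in (0:ℝ)..δ, tn δ n (R + u) m = ∫ u in (0:ℝ)..δ, ∑' m, tn δ n (R + u) m := by
    have hc : ∀ m, Continuous (fun u => tn δ n (R + u) m) := fun m =>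
      (tn_cont δ n m).comp (by fun_prop)
    let f : ℕ → C(ℝ, ℝ) := fun m => ⟨fun u => tn δ n (R + u) m, hc m⟩
    have := intervalIntegral.tsum_intervalIntegral_eq_of_summable_norm (a := 0) (b := δ) (f := f) ?_
    · exact this
    · apply Summable.of_nonneg_of_le (fun m => norm_nonneg _) (fun m => ?_) (mj_summable δ)
      rw [ContinuousMap.norm_le _ (by unfold mj; have := Pool.Agent.H383.Div.dv_nonneg m; positivity)]
      intro x
      simp only [ContinuousMap.restrict_apply]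
      rw [Real.norm_eq_abs]
      exact abs_tn_le hδ hn _ m
  rw [← h1, ← tsum_mul_left]
  exact tsum_congr (fun m => tn_avg hδ n R m)

lemma tsum_cont {δ : ℝ} (hδ : 0 < δ) {n : ℕ} (hn : 2 ≤ n) : Continuous (fun R => ∑' m, tn δ n R m) :=
  continuous_tsum (fun m => tn_cont δ n m) (mj_summable δ)
    (fun m R => by rw [Real.norm_eq_abs]; exact abs_tn_le hδ hn R m)

/-- the averaged Voronoi formula -/
theorem An_formula : ∃ C : ℝ, 0 < C ∧ ∀ (n : ℕ) (R δ : ℝ), 2 ≤ n → 1 ≤ R → 0 < δ → δ ≤ 1 / 2 →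
    |An δ n R - ∑' m : ℕ, tn δ n R m| ≤ C * (R ^ (-(12 / 25) : ℝ) * δ ^ (-(13 / 25) : ℝ)) := by
  obtain ⟨C, hC, hV⟩ := Pool.Agent.H383.Div.vor
  refine ⟨C, hC, ?_⟩
  intro n R δ hn
  induction n, hn using Nat.le_induction generalizing R with
  | base =>
    intro hR hδ hδ1
    have h := hV R δ hR hδ hδ1
    have e1 : An δ 2 R = (1 / δ ^ 2) * (∫ u in (0:ℝ)..δ, ∫ v in (0:ℝ)..δ, Ed (R + u + v)) := by
      have := Av_eq hR hδ
      unfold Av at this
      rw [this]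
      change (1/δ) * (∫ u in (0:ℝ)..δ, (1/δ) * (∫ v in (0:ℝ)..δ, Ed' (R + u + v))) = _
      rw [intervalIntegral.integral_const_mul]
      ring
    have e2 : ∑' m : ℕ, tn δ 2 R m = ∑' m : ℕ, vt R δ m := by
      apply tsum_congr
      intro m
      rfl
    rw [e1, e2]
    exact h
  | succ n hn ih =>
    intro hR hδ hδ1
    rw [← tsum_avg hδ hn R]
    change |(1/δ) * (∫ u in (0:ℝ)..δ, An δ n (R + u)) - _| ≤ _
    have hci : IntervalIntegrable (fun u => ∑' m : ℕ, tn δ n (R + u) m) volume 0 δ :=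
      ((tsum_cont hδ hn).comp (by fun_prop : Continuous (fun u => R + u))).intervalIntegrable _ _
    rw [← mul_sub, ← intervalIntegral.integral_sub (An_int' δ n R 0 δ) hci]
    rw [abs_mul, abs_of_pos (by positivity : 0 < 1/δ)]
    have h1 : ‖∫ u in (0:ℝ)..δ, (An δ n (R + u) - ∑' m : ℕ, tn δ n (R + u) m)‖ ≤
        (C * (R ^ (-(12 / 25) : ℝ) * δ ^ (-(13 / 25) : ℝ))) * |δ - 0| := by
      apply intervalIntegral.norm_integral_le_of_norm_le_const
      intro u hu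
      rw [Set.uIoc_of_le hδ.le, Set.mem_Ioc] at hu
      rw [Real.norm_eq_abs]
      refine (ih (R + u) (by linarith [hu.1]) hδ hδ1).trans ?_
      have h2 : (R + u) ^ (-(12 / 25) : ℝ) ≤ R ^ (-(12 / 25) : ℝ) :=
        Real.rpow_le_rpow_of_nonpos (by linarith) (by linarith [hu.1]) (by norm_num)
      gcongr
    rw [Real.norm_eq_abs, sub_zero, abs_of_pos hδ] at h1
    calc (1/δ) * |∫ u in (0:ℝ)..δ, (An δ n (R + u) - ∑' m : ℕ, tn δ n (R + u) m)| ≤
        (1/δ) * ((C * (R ^ (-(12 / 25) : ℝ) * δ ^ (-(13 / 25) : ℝ))) * δ) := by gcongr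
      _ = _ := by field_simp

end Pool.Agent.H383.OM
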