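import Mathlib
import Pool.Agent.H383.OM.Defs

open MeasureTheory Filter Topology
open Pool.Agent.H387R2.Vor

namespace Pool.Agent.H383.OM

/-- Dirichlet's theorem on simultaneous approximation -/
theorem dirichlet_simul (N q : ℕ) (hq : 1 ≤ q) (α : ℕ → ℝ) :
    ∃ j : ℕ, 1 ≤ j ∧ j ≤ q ^ N ∧ ∀ i, i < N → ∃ k : ℤ, |(j : ℝ) * α i - k| ≤ 1 / q := by
  have hqR : (0:ℝ) < q := by exact_mod_cast hq
  let F : Fin (q ^ N + 1) → (Fin N → Fin q) := fun k i =>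
    ⟨⌊Int.fract ((k : ℕ) * α i) * q⌋₊, by
      rw [Nat.floor_lt (mul_nonneg (Int.fract_nonneg _) hqR.le)]
      have := Int.fract_lt_one ((k : ℕ) * α i)
      nlinarith⟩
  have hcard : Fintype.card (Fin N → Fin q) < Fintype.card (Fin (q ^ N + 1)) := by
    simp
  obtain ⟨k, k', hne, hF⟩ := Fintype.exists_ne_map_eq_of_card_lt F hcard
  wlog hlt : (k : ℕ) < (k' : ℕ) generalizing k k'
  · refine this k' k hne.symm hF.symm ?_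
    have h1 : (k : ℕ) ≠ (k' : ℕ) := fun h => hne (Fin.ext h)
    omega
  refine ⟨(k' : ℕ) - (k : ℕ), by omega, by have := k'.2; omega, ?_⟩
  intro i hi
  have h1 : F k ⟨i, hi⟩ = F k' ⟨i, hi⟩ := by rw [hF]
  have h2 : ⌊Int.fract (((k : ℕ) : ℝ) * α i) * q⌋₊ = ⌊Int.fract (((k' : ℕ) : ℝ) * α i) * q⌋₊ :=
    congrArg Fin.val h1
  set a := Int.fract (((k : ℕ) : ℝ) * α i) with ha
  set b := Int.fract (((k' : ℕ) : ℝ) * α i) with hb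
  have ha0 : 0 ≤ a * q := mul_nonneg (Int.fract_nonneg _) hqR.le
  have hb0 : 0 ≤ b * q := mul_nonneg (Int.fract_nonneg _) hqR.le
  have e1 := Nat.floor_le ha0
  have e2 := Nat.lt_floor_add_one (a * q)
  have e3 := Nat.floor_le hb0
  have e4 := Nat.lt_floor_add_one (b * q)
  rw [h2] at e1 e2
  have hab : |(b - a) * q| < 1 := by
    rw [abs_lt]; constructor <;> nlinarith
  have hab' : |b - a| ≤ 1 / q := by
    rw [abs_mul, abs_of_pos hqR] at hab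
    rw [le_div_iff₀ hqR]
    exact hab.le
  refine ⟨⌊((k' : ℕ) : ℝ) * α i⌋ - ⌊((k : ℕ) : ℝ) * α i⌋, ?_⟩
  have e5 : b = ((k' : ℕ) : ℝ) * α i - ⌊((k' : ℕ) : ℝ) * α i⌋ := rfl
  have e6 : a = ((k : ℕ) : ℝ) * α i - ⌊((k : ℕ) : ℝ) * α i⌋ := rfl
  have e7 : (((k' : ℕ) - (k : ℕ) : ℕ) : ℝ) = ((k' : ℕ) : ℝ) - ((k : ℕ) : ℝ) := by
    rw [Nat.cast_sub hlt.le]
  have : (((k' : ℕ) - (k : ℕ) : ℕ) : ℝ) * α i -
      ((⌊((k' : ℕ) : ℝ) * α i⌋ - ⌊((k : ℕ) : ℝ) * α i⌋ : ℤ) : ℝ) = b - a := by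
    rw [e7, e5, e6]; push_cast; ring
  rw [this]; exact hab'

/-- near periods -/
theorem near_period (N q : ℕ) (hq : 1 ≤ q) {T : ℝ} (hT : 0 < T) :
    ∃ τ : ℝ, T ≤ τ ∧ τ ≤ (q : ℝ) ^ N * T ∧
      ∀ m : ℕ, m ≤ N → ∃ k : ℤ, |2 * √(m:ℝ) * τ - k| ≤ 1 / q := by
  obtain ⟨j, hj1, hj2, hj⟩ := dirichlet_simul N q hq (fun i => 2 * √((i + 1 : ℕ) : ℝ) * T)
  have hj1' : (1:ℝ) ≤ j := by exact_mod_cast hj1
  have hj2' : (j:ℝ) ≤ (q:ℝ) ^ N := by exact_mod_cast hj2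
  refine ⟨j * T, by nlinarith, by nlinarith, ?_⟩
  intro m hm
  rcases Nat.eq_zero_or_pos m with h0 | h0
  · subst h0
    refine ⟨0, ?_⟩
    simp
  · obtain ⟨k, hk⟩ := hj (m - 1) (by omega)
    refine ⟨k, ?_⟩
    have e : m - 1 + 1 = m := by omega
    rw [e] at hk
    rw [show 2 * √(m:ℝ) * (j * T) = j * (2 * √(m:ℝ) * T) by ring]
    exact hk

end Pool.Agent.H383.OM
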