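import Mathlib
import Pool.Agent.H383.OM.Cf
import Pool.Agent.H383.DivA

open MeasureTheory Filter Topology
open Pool.Agent.H387R2.Vor
open Pool.Agent.H383.Div (mt Del_eq dv_nonneg)

namespace Pool.Agent.H383.OM

lemma hasDerivAt_ex (y : ℝ) : HasDerivAt ex (2 * Real.pi * Complex.I * ex y) y := by
  unfold ex
  have h1 : HasDerivAt (fun y : ℝ => ((2 * Real.pi * y : ℝ) : ℂ) * Complex.I) (2 * Real.pi * Complex.I) y := by
    have h2 : HasDerivAt (fun y : ℝ => ((2 * Real.pi * y : ℝ) : ℂ)) ((2 * Real.pi : ℝ) : ℂ) y := by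
      have h3 : HasDerivAt (fun y : ℝ => 2 * Real.pi * y) (2 * Real.pi) y := by
        simpa using (hasDerivAt_id y).const_mul (2 * Real.pi)
      exact h3.ofReal_comp
    exact (h2.mul_const Complex.I).congr_deriv (by push_cast; ring)
  exact h1.cexp.congr_deriv (by ring)

lemma hasDerivAt_cf {y : ℝ} (hy : y ≠ 0) : HasDerivAt cf ((ex y - cf y) / y) y := by
  have hpi := Real.pi_pos
  have hc : (((2 * Real.pi * y : ℝ) : ℂ) * Complex.I) ≠ 0 := by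
    refine mul_ne_zero ?_ Complex.I_ne_zero
    exact_mod_cast (by positivity : (2 * Real.pi * y) ≠ 0)
  have h1 : HasDerivAt (fun y : ℝ => ((2 * Real.pi * y : ℝ) : ℂ) * Complex.I) (2 * Real.pi * Complex.I) y := by
    have h2 : HasDerivAt (fun y : ℝ => ((2 * Real.pi * y : ℝ) : ℂ)) ((2 * Real.pi : ℝ) : ℂ) y := by
      have h3 : HasDerivAt (fun y : ℝ => 2 * Real.pi * y) (2 * Real.pi) y := by
        simpa using (hasDerivAt_id y).const_mul (2 * Real.pi)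
      exact h3.ofReal_comp
    exact (h2.mul_const Complex.I).congr_deriv (by push_cast; ring)
  have h2 := ((hasDerivAt_ex y).sub_const 1).div h1 hc
  have h3 : (fun y => (ex y - 1) / (((2 * Real.pi * y : ℝ) : ℂ) * Complex.I)) = cf := by
    funext y; rfl
  rw [← h3]
  refine h2.congr_deriv ?_
  have hy' : (y:ℂ) ≠ 0 := by exact_mod_cast hy
  have hpi' : (Real.pi : ℂ) ≠ 0 := by exact_mod_cast hpi.ne'
  have hI := Complex.I_ne_zero
  simp only [Complex.ofReal_mul, Complex.ofReal_ofNat]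
  field_simp

/-- the complex weight as a function of `y = z²` -/
noncomputable def Fy (δ : ℝ) (n : ℕ) (v : ℝ) (y : ℝ) : ℂ := om * ex (-(2 * √y * v)) * cf (2 * √y * δ) ^ n

noncomputable def Fd (δ : ℝ) (n : ℕ) (v : ℝ) (y : ℝ) : ℂ :=
  om * ex (-(2 * √y * v)) * cf (2 * √y * δ) ^ (n - 1) *
    (-(2 * Real.pi * Complex.I * (v / √y : ℝ)) * cf (2 * √y * δ) + n * (ex (2 * √y * δ) - cf (2 * √y * δ)) / (2 * y : ℝ))

lemma Fy_deriv {δ : ℝ} (hδ : 0 < δ) {n : ℕ} (hn : 1 ≤ n) (v : ℝ) {y : ℝ} (hy : 0 < y) :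
    HasDerivAt (Fy δ n v) (Fd δ n v y) y := by
  have hs : 0 < √y := Real.sqrt_pos.mpr hy
  have hsq : HasDerivAt (fun y : ℝ => √y) (1 / (2 * √y)) y := Real.hasDerivAt_sqrt hy.ne'
  have h1 : HasDerivAt (fun y : ℝ => -(2 * √y * v)) (-(2 * (1 / (2 * √y)) * v)) y :=
    ((hsq.const_mul 2).mul_const v).neg
  have h2 : HasDerivAt (fun y : ℝ => 2 * √y * δ) (2 * (1 / (2 * √y)) * δ) y :=
    (hsq.const_mul 2).mul_const δ
  have h3 : HasDerivAt (fun y : ℝ => ex (-(2 * √y * v)))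
      ((-(2 * (1 / (2 * √y)) * v)) • (2 * Real.pi * Complex.I * ex (-(2 * √y * v)))) y :=
    HasDerivAt.scomp y (hasDerivAt_ex _) h1
  have hne : 2 * √y * δ ≠ 0 := by positivity
  have h4 : HasDerivAt (fun y : ℝ => cf (2 * √y * δ))
      ((2 * (1 / (2 * √y)) * δ) • ((ex (2 * √y * δ) - cf (2 * √y * δ)) / ((2 * √y * δ : ℝ) : ℂ))) y :=
    HasDerivAt.scomp y (hasDerivAt_cf hne) h2
  have h5 := h4.pow n
  have h6 := (h3.const_mul om).mul h5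
  unfold Fy
  refine h6.congr_deriv ?_
  unfold Fd
  obtain ⟨k, rfl⟩ : ∃ k, n = k + 1 := ⟨n - 1, by omega⟩
  have hs' : ((√y : ℝ) : ℂ) ≠ 0 := by exact_mod_cast hs.ne'
  have hy' : (y:ℂ) ≠ 0 := by exact_mod_cast hy.ne'
  have hδ' : (δ:ℂ) ≠ 0 := by exact_mod_cast hδ.ne'
  have hyy : (y:ℂ) = ((√y : ℝ) : ℂ) * ((√y : ℝ) : ℂ) := by
    rw [← Complex.ofReal_mul, Real.mul_self_sqrt hy.le]
  simp only [Pi.pow_apply, Nat.add_sub_cancel, pow_succ, Complex.real_smul]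
  push_cast
  rw [hyy]
  field_simp

lemma Fd_le {δ : ℝ} (hδ : 0 < δ) {n : ℕ} (hn : 1 ≤ n) {v : ℝ} (hv : 0 ≤ v) {y : ℝ} (hy : 0 < y) :
    ‖Fd δ n v y‖ ≤ (v / δ + n) * y⁻¹ := by
  have hs : 0 < √y := Real.sqrt_pos.mpr hy
  have hpi := Real.pi_pos
  unfold Fd
  have h1 := cf_le (y := 2 * √y * δ) (by positivity)
  have h2 := cf_le_one (2 * √y * δ)
  rw [norm_mul, norm_mul, norm_mul, norm_om, norm_ex, norm_pow]
  have h3 : ‖cf (2 * √y * δ)‖ ^ (n-1) ≤ 1 := pow_le_one₀ (norm_nonneg _) h2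
  have h4 : ‖-(2 * Real.pi * Complex.I * (v / √y : ℝ)) * cf (2 * √y * δ) + n * (ex (2 * √y * δ) - cf (2 * √y * δ)) / (2 * y : ℝ)‖ ≤
      (v / δ + n) * y⁻¹ := by
    refine (norm_add_le _ _).trans ?_
    have e1 : ‖-(2 * Real.pi * Complex.I * (v / √y : ℝ)) * cf (2 * √y * δ)‖ ≤ (v/δ) * y⁻¹ := by
      rw [norm_mul, norm_neg, norm_mul, norm_mul, norm_mul, Complex.norm_I, Complex.norm_real, Complex.norm_real,
        Real.norm_eq_abs, Real.norm_eq_abs, abs_of_pos hpi, abs_of_nonneg (by positivity)]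
      simp only [Complex.norm_ofNat, mul_one]
      calc 2 * Real.pi * (v / √y) * ‖cf (2 * √y * δ)‖ ≤ 2 * Real.pi * (v / √y) * (1 / (Real.pi * (2 * √y * δ))) := by gcongr
        _ = (v/δ) * (√y * √y)⁻¹ := by field_simp
        _ = _ := by rw [Real.mul_self_sqrt hy.le]
    have e2 : ‖(n:ℂ) * (ex (2 * √y * δ) - cf (2 * √y * δ)) / (2 * y : ℝ)‖ ≤ n * y⁻¹ := by
      rw [norm_div, norm_mul, Complex.norm_natCast, Complex.norm_real, Real.norm_eq_abs, abs_of_pos (by positivity)]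
      have e3 : ‖ex (2 * √y * δ) - cf (2 * √y * δ)‖ ≤ 2 := by
        calc _ ≤ ‖ex (2 * √y * δ)‖ + ‖cf (2 * √y * δ)‖ := norm_sub_le _ _
          _ ≤ 1 + 1 := by rw [norm_ex]; linarith
          _ = 2 := by norm_num
      calc (n:ℝ) * ‖ex (2 * √y * δ) - cf (2 * √y * δ)‖ / (2 * y) ≤ (n:ℝ) * 2 / (2 * y) := by gcongr
        _ = _ := by field_simp
    linarith
  calc 1 * 1 * ‖cf (2 * √y * δ)‖ ^ (n-1) * _ ≤ 1 * 1 * 1 * ((v / δ + n) * y⁻¹) := by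
        gcongr
    _ = _ := by ring

/-- the real weight -/
noncomputable def fy (δ : ℝ) (n : ℕ) (v : ℝ) (y : ℝ) : ℝ := y ^ (-(3/4) : ℝ) * Cn δ n (√y) v

noncomputable def fd (δ : ℝ) (n : ℕ) (v : ℝ) (y : ℝ) : ℝ :=
  (-(3/4) * y ^ (-(3/4) - 1 : ℝ)) * (Fy δ n v y).re + y ^ (-(3/4) : ℝ) * (Fd δ n v y).re

lemma Cn_Fy (δ : ℝ) (n : ℕ) (v y : ℝ) : Cn δ n (√y) v = (Fy δ n v y).re := rfl

lemma fy_deriv {δ : ℝ} (hδ : 0 < δ) {n : ℕ} (hn : 1 ≤ n) (v : ℝ) {y : ℝ} (hy : 0 < y) :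
    HasDerivAt (fy δ n v) (fd δ n v y) y := by
  have h1 : HasDerivAt (fun y : ℝ => (Fy δ n v y).re) ((Fd δ n v y).re) y := by
    have := Fy_deriv hδ hn v hy
    exact (Complex.reCLM.hasFDerivAt.comp_hasDerivAt y this)
  have h2 : HasDerivAt (fun y : ℝ => y ^ (-(3/4) : ℝ)) (-(3/4) * y ^ (-(3/4) - 1 : ℝ)) y :=
    Real.hasDerivAt_rpow_const (Or.inl hy.ne')
  exact h2.mul h1

lemma fd_le {δ : ℝ} (hδ : 0 < δ) {n : ℕ} (hn : 1 ≤ n) {v : ℝ} (hv : n * δ ≤ v) {y : ℝ} (hy : 0 < y) :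
    |fd δ n v y| ≤ (1 + 2 * (v / δ)) * y ^ (-(7/4) : ℝ) := by
  have hn' : (1:ℝ) ≤ n := by exact_mod_cast hn
  have hv0 : 0 ≤ v := by nlinarith
  have hnv : (n:ℝ) ≤ v / δ := by rw [le_div_iff₀ hδ]; exact hv
  unfold fd
  have h1 : |(Fy δ n v y).re| ≤ 1 := abs_Cn_le_one δ n (√y) v
  have h2 : |(Fd δ n v y).re| ≤ (v / δ + n) * y⁻¹ := (Complex.abs_re_le_norm _).trans (Fd_le hδ hn hv0 hy)
  have e1 : y ^ (-(3/4) - 1 : ℝ) = y ^ (-(7/4) : ℝ) := by norm_num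
  have e2 : y ^ (-(3/4) : ℝ) * y⁻¹ = y ^ (-(7/4) : ℝ) := by
    rw [← Real.rpow_neg_one, ← Real.rpow_add hy]; norm_num
  have hp : 0 < y ^ (-(7/4) : ℝ) := by positivity
  have hp2 : 0 < y ^ (-(3/4) : ℝ) := by positivity
  calc _ ≤ |(-(3/4) * y ^ (-(3/4) - 1 : ℝ)) * (Fy δ n v y).re| + |y ^ (-(3/4) : ℝ) * (Fd δ n v y).re| := abs_add_le _ _
    _ = (3/4) * y ^ (-(7/4) : ℝ) * |(Fy δ n v y).re| + y ^ (-(3/4) : ℝ) * |(Fd δ n v y).re| := by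
        rw [abs_mul, abs_mul, abs_mul, e1, abs_of_pos hp, abs_of_pos hp2, abs_neg, abs_of_pos (by norm_num : (0:ℝ) < 3/4)]
    _ ≤ (3/4) * y ^ (-(7/4) : ℝ) * 1 + y ^ (-(3/4) : ℝ) * ((v / δ + n) * y⁻¹) := by gcongr
    _ = ((3/4) + (v/δ + n)) * y ^ (-(7/4) : ℝ) := by rw [← e2]; ring
    _ ≤ _ := by
      apply mul_le_mul_of_nonneg_right _ hp.le
      linarith

end Pool.Agent.H383.OM
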