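import Mathlib
import Pool.Agent.H383.OM.Hyp
import Pool.Agent.H383.OM.C2a
import Pool.Agent.H383.OM.A

open MeasureTheory Filter Topology
open Pool.Agent.H387R2.Vor
open Pool.Agent.H383.Div (mt_sub Del_eq dv_nonneg)

namespace Pool.Agent.H383.OM

lemma Del_sqrt {y : ℝ} (hy : 1 ≤ y) : |Del y| ≤ 12 * √y := by
  set N := ⌊y⌋₊ with hN
  have hN1 : 1 ≤ N := Nat.le_floor (by exact_mod_cast hy)
  have hN1' : (1:ℝ) ≤ N := by exact_mod_cast hN1
  have hNy : (N:ℝ) ≤ y := Nat.floor_le (by linarith)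
  have hyN : y < N + 1 := Nat.lt_floor_add_one y
  have h1 := Hyp.dsum N hN1
  have h2 : ∑ n ∈ Finset.Ioc 0 N, (((ArithmeticFunction.zeta : ArithmeticFunction ℕ) : ArithmeticFunction ℝ) *
      ((ArithmeticFunction.zeta : ArithmeticFunction ℕ) : ArithmeticFunction ℝ)) n = Dsum y := by
    unfold Dsum
    rw [← hN]
    have e : Finset.Icc 1 N = Finset.Ioc 0 N := by
      ext n; simp only [Finset.mem_Icc, Finset.mem_Ioc]; omega
    rw [e]
    apply Finset.sum_congr rfl
    intro n _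
    have e0 : (ArithmeticFunction.zeta * ArithmeticFunction.zeta : ArithmeticFunction ℕ) = ArithmeticFunction.sigma 0 := by
      rw [← ArithmeticFunction.zeta_mul_pow_eq_sigma, ArithmeticFunction.pow_zero_eq_zeta]
    rw [← ArithmeticFunction.natCoe_mul, e0, ArithmeticFunction.natCoe_apply,
      ArithmeticFunction.sigma_zero_apply]
    rfl
  rw [h2] at h1
  have h3 := mt_sub hN1' hNy
  have h4 : 0 ≤ Div.mt y - Div.mt N := by
    unfold Div.mt
    have hg1 := Real.one_half_lt_eulerMascheroniConstant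
    have a1 : Real.log N ≤ Real.log y := Real.log_le_log (by linarith) hNy
    have a2 : 0 ≤ Real.log N := Real.log_nonneg hN1'
    nlinarith
  have hlog : Real.log y ≤ 2 * √y := by
    have := Real.log_le_rpow_div (by linarith : (0:ℝ) ≤ y) (by norm_num : (0:ℝ) < 1/2)
    rw [← Real.sqrt_eq_rpow] at this
    linarith
  have hs1 : 1 ≤ √y := Real.one_le_sqrt.mpr hy
  have hlog0 : 0 ≤ Real.log y := Real.log_nonneg hy
  have h5 : (y - N) * (Real.log y + 2) ≤ 1 * (Real.log y + 2) :=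
    mul_le_mul_of_nonneg_right (by linarith) (by linarith)
  have h6 : √(N:ℝ) ≤ √y := Real.sqrt_le_sqrt hNy
  have h7 : (N * Real.log N + (2 * Real.eulerMascheroniConstant - 1) * N) = Div.mt N := by unfold Div.mt; rfl
  rw [h7] at h1
  rw [Del_eq]
  rw [abs_le] at h1 ⊢
  constructor <;> linarith [h1.1, h1.2]

lemma mt_deriv {y : ℝ} (hy : 0 < y) :
    HasDerivAt Div.mt (Real.log y + 2 * Real.eulerMascheroniConstant) y := by
  have h1 : HasDerivAt (fun y : ℝ => y * Real.log y) (1 * Real.log y + y * y⁻¹) y :=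
    (hasDerivAt_id y).mul (Real.hasDerivAt_log hy.ne')
  have h2 : HasDerivAt (fun y : ℝ => (2 * Real.eulerMascheroniConstant - 1) * y)
      ((2 * Real.eulerMascheroniConstant - 1) * 1) y := (hasDerivAt_id y).const_mul _
  unfold Div.mt
  refine (h1.add h2).congr_deriv ?_
  rw [mul_inv_cancel₀ hy.ne']; ring

lemma fy_meas (δ : ℝ) (n : ℕ) (v : ℝ) : Measurable (deriv (fy δ n v)) := measurable_deriv _

lemma dfy_int {δ : ℝ} (hδ : 0 < δ) {n : ℕ} (hn : 1 ≤ n) {v : ℝ} (hv : n * δ ≤ v) {a b : ℝ} (ha : 1 ≤ a) :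
    IntegrableOn (deriv (fy δ n v)) (Set.Icc a b) := by
  have hv0 : 0 ≤ v := by
    have : (1:ℝ) ≤ n := by exact_mod_cast hn
    nlinarith
  apply Measure.integrableOn_of_bounded (M := 1 + 2 * (v/δ)) (measure_Icc_lt_top).ne (fy_meas δ n v).aestronglyMeasurable
  rw [ae_restrict_iff' measurableSet_Icc]
  refine Eventually.of_forall (fun y hy => ?_)
  have hy1 : 1 ≤ y := ha.trans hy.1
  rw [(fy_deriv hδ hn v (by linarith)).deriv, Real.norm_eq_abs]
  refine (fd_le hδ hn hv (by linarith)).trans ?_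
  have h1 : y ^ (-(7/4) : ℝ) ≤ 1 := Real.rpow_le_one_of_one_le_of_nonpos hy1 (by norm_num)
  have h2 : 0 ≤ 1 + 2 * (v/δ) := by positivity
  nlinarith

lemma abs_fy_le (δ : ℝ) (n : ℕ) (v : ℝ) {y : ℝ} (hy : 0 < y) : |fy δ n v y| ≤ y ^ (-(3/4) : ℝ) := by
  unfold fy
  rw [abs_mul, abs_of_pos (by positivity)]
  have := abs_Cn_le_one δ n (√y) v
  have h2 : 0 < y ^ (-(3/4) : ℝ) := by positivity
  nlinarith

/-- the partial summation, finite form -/
lemma part_sum {δ : ℝ} (hδ : 0 < δ) {n : ℕ} (hn : 1 ≤ n) {v : ℝ} (hv : n * δ ≤ v) {M : ℕ} (hM : 1 ≤ M) :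
    |∑ m ∈ Finset.Icc 0 M, fy δ n v m * dv m -
      ∫ y in (1:ℝ)..M, fy δ n v y * (Real.log y + 2 * Real.eulerMascheroniConstant)| ≤
      13 + 48 * (1 + 2 * (v/δ)) := by
  have hMR : (1:ℝ) ≤ M := by exact_mod_cast hM
  have hM0 : (0:ℝ) < M := by linarith
  have hg1 := Real.one_half_lt_eulerMascheroniConstant
  have hg2 := Real.eulerMascheroniConstant_lt_two_thirds
  have hn' : (1:ℝ) ≤ n := by exact_mod_cast hn
  have hv0 : 0 ≤ v := by nlinarith
  set f := fy δ n v with hf
  set g := Real.eulerMascheroniConstant with hg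
  set K : ℝ := 1 + 2 * (v/δ) with hK
  have hK0 : 0 ≤ K := by positivity
  have habel := sum_mul_eq_sub_integral_mul₀' (f := f) (c := fun m => dv m) (by simp [dv]) M
    (fun t ht => (fy_deriv hδ hn v (by linarith [ht.1])).differentiableAt) (dfy_int hδ hn hv le_rfl)
  have hD : ∀ t : ℝ, ∑ k ∈ Finset.Icc 0 ⌊t⌋₊, dv k = Dsum t := by
    intro t
    unfold Dsum
    rw [Finset.Icc_eq_cons_Ioc (Nat.zero_le _), Finset.sum_cons]
    have : dv 0 = 0 := by simp [dv]
    rw [this, zero_add]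
    congr 1
  have hDM : ∑ k ∈ Finset.Icc 0 M, dv k = Dsum M := by
    have := hD M
    rwa [Nat.floor_natCast] at this
  rw [habel, hDM, ← intervalIntegral.integral_of_le hMR]
  simp_rw [hD]
  -- decompose D
  have hdint : IntervalIntegrable (deriv f) volume 1 M := by
    rw [intervalIntegrable_iff, Set.uIoc_of_le hMR]
    exact (dfy_int hδ hn hv le_rfl).mono_set Set.Ioc_subset_Icc_self
  have hmtc : ContinuousOn Div.mt (Set.uIcc 1 M) := by
    intro y hy
    rw [Set.uIcc_of_le hMR] at hy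
    exact (mt_deriv (by linarith [hy.1])).continuousAt.continuousWithinAt
  have hi1 : IntervalIntegrable (fun t => deriv f t * Div.mt t) volume 1 M := hdint.mul_continuousOn hmtc
  have hDelb : ∀ t ∈ Set.Ioc (1:ℝ) M, |deriv f t * Del t| ≤ (12 * K) * t ^ (-(5/4):ℝ) := by
    intro t ht
    have ht0 : 0 < t := by linarith [ht.1]
    rw [(fy_deriv hδ hn v ht0).deriv, abs_mul]
    have e1 := fd_le hδ hn hv ht0
    have e2 := Del_sqrt ht.1.le
    have e3 : t ^ (-(7/4):ℝ) * √t = t ^ (-(5/4):ℝ) := by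
      rw [Real.sqrt_eq_rpow, ← Real.rpow_add ht0]; norm_num
    calc |fd δ n v t| * |Del t| ≤ (K * t ^ (-(7/4):ℝ)) * (12 * √t) := by gcongr
      _ = (12 * K) * (t ^ (-(7/4):ℝ) * √t) := by ring
      _ = _ := by rw [e3]
  have hDelm : Measurable Del := by
    have h1 : Measurable Dsum := Pool.Agent.H383.Div.Dsum_mono.measurable
    unfold Del
    fun_prop
  have hpowi : IntervalIntegrable (fun t : ℝ => (12 * K) * t ^ (-(5/4):ℝ)) volume 1 M := by
    apply IntervalIntegrable.const_mul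
    apply intervalIntegral.intervalIntegrable_rpow
    right
    rw [Set.uIcc_of_le hMR]
    intro h; linarith [h.1]
  have hi2 : IntervalIntegrable (fun t => deriv f t * Del t) volume 1 M := by
    rw [intervalIntegrable_iff, Set.uIoc_of_le hMR] at hpowi ⊢
    apply Integrable.mono' hpowi ((measurable_deriv f).mul hDelm).aestronglyMeasurable
    rw [ae_restrict_iff' measurableSet_Ioc]
    exact Eventually.of_forall (fun t ht => by rw [Real.norm_eq_abs]; exact hDelb t ht)
  have hsplit : ∫ t in (1:ℝ)..M, deriv f t * Dsum t = (∫ t in (1:ℝ)..M, deriv f t * Div.mt t) + ∫ t in (1:ℝ)..M, deriv f t * Del t := by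
    rw [← intervalIntegral.integral_add hi1 hi2]
    apply intervalIntegral.integral_congr
    intro t _
    simp only
    rw [Del_eq]; ring
  have hlogi : IntervalIntegrable (fun y => Real.log y + 2 * g) volume 1 M := by
    apply ContinuousOn.intervalIntegrable
    intro y hy
    rw [Set.uIcc_of_le hMR] at hy
    have : y ≠ 0 := by linarith [hy.1]
    exact ((Real.continuousAt_log this).add continuousAt_const).continuousWithinAt
  have hparts : ∫ t in (1:ℝ)..M, deriv f t * Div.mt t = f M * Div.mt M - f 1 * Div.mt 1 - ∫ t in (1:ℝ)..M, f t * (Real.log t + 2 * g) := by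
    have := intervalIntegral.integral_mul_deriv_eq_deriv_mul (a := 1) (b := (M:ℝ)) (u := f) (u' := deriv f) (v := Div.mt)
      (v' := fun y => Real.log y + 2 * g)
      (fun y hy => by
        rw [Set.uIcc_of_le hMR] at hy
        have h := fy_deriv hδ hn v (y := y) (by linarith [hy.1])
        have h' : deriv f y = fd δ n v y := h.deriv
        rw [h']
        exact h)
      (fun y hy => by
        rw [Set.uIcc_of_le hMR] at hy
        exact mt_deriv (by linarith [hy.1]))
      hdint hlogi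
    linarith
  rw [hsplit, hparts]
  have hb1 : |∫ t in (1:ℝ)..M, deriv f t * Del t| ≤ 48 * K := by
    have h1 : ‖∫ t in (1:ℝ)..M, deriv f t * Del t‖ ≤ ∫ t in (1:ℝ)..M, (12 * K) * t ^ (-(5/4):ℝ) := by
      apply intervalIntegral.norm_integral_le_of_norm_le hMR _ hpowi
      exact Eventually.of_forall (fun t ht => by rw [Real.norm_eq_abs]; exact hDelb t ht)
    rw [Real.norm_eq_abs] at h1
    refine h1.trans ?_
    rw [intervalIntegral.integral_const_mul, integral_rpow (by
      right; refine ⟨by norm_num, ?_⟩; rw [Set.uIcc_of_le hMR]; intro h; linarith [h.1])]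
    have e1 : (0:ℝ) ≤ (M:ℝ) ^ (-(5/4) + 1 : ℝ) := by positivity
    rw [Real.one_rpow]
    have e2 : ((M:ℝ) ^ (-(5/4) + 1 : ℝ) - 1) / (-(5/4) + 1) = 4 * (1 - (M:ℝ) ^ (-(5/4) + 1 : ℝ)) := by
      field_simp; ring
    rw [e2]
    nlinarith
  have hb2 : |f M * Del M| ≤ 12 := by
    rw [abs_mul]
    have e1 := abs_fy_le δ n v hM0
    have e2 := Del_sqrt hMR
    have e3 : (M:ℝ) ^ (-(3/4):ℝ) * √M = (M:ℝ) ^ (-(1/4):ℝ) := by
      rw [Real.sqrt_eq_rpow, ← Real.rpow_add hM0]; norm_num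
    have e4 : (M:ℝ) ^ (-(1/4):ℝ) ≤ 1 := Real.rpow_le_one_of_one_le_of_nonpos hMR (by norm_num)
    calc |f M| * |Del M| ≤ (M:ℝ) ^ (-(3/4):ℝ) * (12 * √M) := by gcongr
      _ = 12 * ((M:ℝ) ^ (-(3/4):ℝ) * √M) := by ring
      _ ≤ 12 := by rw [e3]; linarith
  have hb3 : |f 1 * Div.mt 1| ≤ 1 := by
    rw [abs_mul]
    have e1 := abs_fy_le δ n v (y := 1) one_pos
    rw [Real.one_rpow] at e1
    have e2 : |Div.mt 1| ≤ 1 := by
      unfold Div.mt
      rw [Real.log_one, abs_le]
      constructor <;> linarith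
    calc |f 1| * |Div.mt 1| ≤ 1 * 1 := by gcongr
      _ = 1 := by ring
  have hfin : f M * Dsum M - (f M * Div.mt M - f 1 * Div.mt 1 - (∫ t in (1:ℝ)..M, f t * (Real.log t + 2 * g)) +
      ∫ t in (1:ℝ)..M, deriv f t * Del t) - ∫ y in (1:ℝ)..M, f y * (Real.log y + 2 * g) =
      f M * Del M + f 1 * Div.mt 1 - ∫ t in (1:ℝ)..M, deriv f t * Del t := by
    rw [Del_eq]; ring
  rw [hfin]
  rw [abs_le] at hb1 hb2 hb3 ⊢
  constructor <;> linarith [hb1.1, hb1.2, hb2.1, hb2.2, hb3.1, hb3.2]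

end Pool.Agent.H383.OM
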