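import Mathlib
import Pool.Agent.H383.OM.C2b

open MeasureTheory Filter Topology
open Pool.Agent.H387R2.Vor
open Pool.Agent.H383.Div (dv_nonneg)

namespace Pool.Agent.H383.OM

/-- the integrand -/
noncomputable def qf (δ : ℝ) (n : ℕ) (v z : ℝ) : ℝ :=
  4 * (Real.log z + Real.eulerMascheroniConstant) * z ^ (-(1/2) : ℝ) * Cn δ n z v

lemma Cn_cont {δ : ℝ} (hδ : 0 < δ) (n : ℕ) (v : ℝ) : ContinuousOn (fun z => Cn δ n z v) (Set.Ioi 0) := by
  intro z hz
  have hz' : (0:ℝ) < z := hz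
  apply ContinuousAt.continuousWithinAt
  unfold Cn
  have h1 : ContinuousAt (fun z : ℝ => ex (-(2 * z * v))) z := (ex_cont.comp (by fun_prop)).continuousAt
  have h2 : ContinuousAt (fun z : ℝ => cf (2 * z * δ)) z := by
    have h3 : ContinuousAt cf (2 * z * δ) := (hasDerivAt_cf (by positivity)).continuousAt
    exact ContinuousAt.comp (f := fun z : ℝ => 2 * z * δ) h3 (by fun_prop)
  exact Complex.continuous_re.continuousAt.comp ((continuousAt_const.mul h1).mul (h2.pow n))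

lemma qf_cont {δ : ℝ} (hδ : 0 < δ) (n : ℕ) (v : ℝ) : ContinuousOn (qf δ n v) (Set.Ioi 0) := by
  unfold qf
  apply ContinuousOn.mul _ (Cn_cont hδ n v)
  intro z hz
  have hz' : (0:ℝ) < z := hz
  apply ContinuousAt.continuousWithinAt
  exact ((continuousAt_const.mul ((Real.continuousAt_log hz'.ne').add continuousAt_const)).mul
    (Real.continuousAt_rpow_const z _ (Or.inl hz'.ne')))

lemma abs_qf_top {δ : ℝ} (hδ : 0 < δ) {n : ℕ} (hn : 2 ≤ n) (v : ℝ) {z : ℝ} (hz : 1 ≤ z) :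
    |qf δ n v z| ≤ (8 / δ^2) * z ^ (-(3/2) : ℝ) := by
  have hz0 : 0 < z := by linarith
  have hg1 := Real.one_half_lt_eulerMascheroniConstant
  have hg2 := Real.eulerMascheroniConstant_lt_two_thirds
  have hpi := Real.pi_gt_three
  have hl0 : 0 ≤ Real.log z := Real.log_nonneg hz
  have hl1 := Real.log_le_sub_one_of_pos hz0
  have h1 := cf_le (y := 2 * z * δ) (by positivity)
  have h2 : 1 / (Real.pi * (2 * z * δ)) ≤ 1 / (z * δ) := by
    apply one_div_le_one_div_of_le (by positivity)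
    have : 0 < z * δ := by positivity
    nlinarith
  have h3 : |Cn δ n z v| ≤ (1 / (z * δ))^2 := by
    refine (abs_Cn_le δ n z v).trans ?_
    refine (pow_le_pow_of_le_one (norm_nonneg _) (cf_le_one _) hn).trans ?_
    exact pow_le_pow_left₀ (norm_nonneg _) (h1.trans h2) 2
  unfold qf
  rw [abs_mul, abs_mul, abs_mul, abs_of_pos (by norm_num : (0:ℝ) < 4), abs_of_nonneg (by linarith : 0 ≤ Real.log z + Real.eulerMascheroniConstant),
    abs_of_pos (by positivity : 0 < z ^ (-(1/2) : ℝ))]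
  calc 4 * (Real.log z + Real.eulerMascheroniConstant) * z ^ (-(1/2) : ℝ) * |Cn δ n z v| ≤
      4 * (2 * z) * z ^ (-(1/2) : ℝ) * (1 / (z * δ))^2 := by
        gcongr
        linarith
    _ = (8 / δ^2) * (z ^ (-(1/2) : ℝ) * z⁻¹) := by field_simp; norm_num
    _ = _ := by rw [← Real.rpow_neg_one, ← Real.rpow_add hz0]; norm_num

lemma abs_qf_bot (δ : ℝ) (n : ℕ) (v : ℝ) {z : ℝ} (hz0 : 0 < z) (hz : z ≤ 1) :
    |qf δ n v z| ≤ 20 * z ^ (-(3/4) : ℝ) := by
  have hg1 := Real.one_half_lt_eulerMascheroniConstant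
  have hg2 := Real.eulerMascheroniConstant_lt_two_thirds
  have h1 : |Real.log z| ≤ 4 * z ^ (-(1/4) : ℝ) := by
    rw [abs_of_nonpos (Real.log_nonpos hz0.le hz), ← Real.log_inv]
    have := Real.log_le_rpow_div (by positivity : (0:ℝ) ≤ z⁻¹) (by norm_num : (0:ℝ) < 1/4)
    rw [Real.inv_rpow hz0.le, ← Real.rpow_neg hz0.le] at this
    linarith
  have h2 : 1 ≤ z ^ (-(1/4) : ℝ) := Real.one_le_rpow_of_pos_of_le_one_of_nonpos hz0 hz (by norm_num)
  have h3 : |Real.log z + Real.eulerMascheroniConstant| ≤ 5 * z ^ (-(1/4) : ℝ) := by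
    refine (abs_add_le _ _).trans ?_
    rw [abs_of_pos (by linarith : 0 < Real.eulerMascheroniConstant)]
    linarith
  have h4 := abs_Cn_le_one δ n z v
  unfold qf
  rw [abs_mul, abs_mul, abs_mul, abs_of_pos (by norm_num : (0:ℝ) < 4), abs_of_pos (by positivity : 0 < z ^ (-(1/2) : ℝ))]
  calc 4 * |Real.log z + Real.eulerMascheroniConstant| * z ^ (-(1/2) : ℝ) * |Cn δ n z v| ≤
      4 * (5 * z ^ (-(1/4) : ℝ)) * z ^ (-(1/2) : ℝ) * 1 := by gcongr
    _ = 20 * (z ^ (-(1/4) : ℝ) * z ^ (-(1/2) : ℝ)) := by ring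
    _ = _ := by rw [← Real.rpow_add hz0]; norm_num

lemma qf_int_top {δ : ℝ} (hδ : 0 < δ) {n : ℕ} (hn : 2 ≤ n) (v : ℝ) : IntegrableOn (qf δ n v) (Set.Ioi 1) := by
  have h1 : IntegrableOn (fun z : ℝ => (8 / δ^2) * z ^ (-(3/2) : ℝ)) (Set.Ioi 1) :=
    (integrableOn_Ioi_rpow_of_lt (by norm_num) one_pos).const_mul _
  apply Integrable.mono' h1
  · exact ((qf_cont hδ n v).mono (Set.Ioi_subset_Ioi zero_le_one)).aestronglyMeasurable measurableSet_Ioi
  · rw [ae_restrict_iff' measurableSet_Ioi]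
    exact Eventually.of_forall (fun z hz => by rw [Real.norm_eq_abs]; exact abs_qf_top hδ hn v (le_of_lt hz))

lemma rpow34_int : IntegrableOn (fun z : ℝ => 20 * z ^ (-(3/4) : ℝ)) (Set.Ioc 0 1) := by
  have h := (intervalIntegral.intervalIntegrable_rpow' (a := 0) (b := 1) (r := -(3/4)) (by norm_num)).const_mul 20
  rwa [intervalIntegrable_iff, Set.uIoc_of_le zero_le_one] at h

lemma qf_int_bot {δ : ℝ} (hδ : 0 < δ) (n : ℕ) (v : ℝ) : IntegrableOn (qf δ n v) (Set.Ioc 0 1) := by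
  apply Integrable.mono' rpow34_int
  · exact ((qf_cont hδ n v).mono Set.Ioc_subset_Ioi_self).aestronglyMeasurable measurableSet_Ioc
  · rw [ae_restrict_iff' measurableSet_Ioc]
    exact Eventually.of_forall (fun z hz => by rw [Real.norm_eq_abs]; exact abs_qf_bot δ n v hz.1 hz.2)

lemma qf_bot_le {δ : ℝ} (n : ℕ) (v : ℝ) : |∫ z in Set.Ioc (0:ℝ) 1, qf δ n v z| ≤ 80 := by
  have h1 : ‖∫ z in Set.Ioc (0:ℝ) 1, qf δ n v z‖ ≤ ∫ z in Set.Ioc (0:ℝ) 1, 20 * z ^ (-(3/4) : ℝ) := by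
    apply norm_integral_le_of_norm_le rpow34_int
    rw [ae_restrict_iff' measurableSet_Ioc]
    exact Eventually.of_forall (fun z hz => by rw [Real.norm_eq_abs]; exact abs_qf_bot δ n v hz.1 hz.2)
  rw [Real.norm_eq_abs] at h1
  refine h1.trans ?_
  rw [← intervalIntegral.integral_of_le zero_le_one, intervalIntegral.integral_const_mul, integral_rpow (Or.inl (by norm_num))]
  norm_num

lemma gcont {δ : ℝ} (hδ : 0 < δ) {n : ℕ} (hn : 1 ≤ n) (v : ℝ) :
    ContinuousOn (fun y => fy δ n v y * (Real.log y + 2 * Real.eulerMascheroniConstant)) (Set.Ioi 0) := by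
  intro y hy
  have hy' : (0:ℝ) < y := hy
  apply ContinuousAt.continuousWithinAt
  exact (fy_deriv hδ hn v hy').continuousAt.mul ((Real.continuousAt_log hy'.ne').add continuousAt_const)

lemma subst_sq {δ : ℝ} (hδ : 0 < δ) {n : ℕ} (hn : 1 ≤ n) (v : ℝ) {M : ℕ} (hM : 1 ≤ M) :
    ∫ y in (1:ℝ)..M, fy δ n v y * (Real.log y + 2 * Real.eulerMascheroniConstant) =
      ∫ z in (1:ℝ)..√(M:ℝ), qf δ n v z := by
  have hMR : (1:ℝ) ≤ M := by exact_mod_cast hM
  have hs : 1 ≤ √(M:ℝ) := Real.one_le_sqrt.mpr hMR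
  have h := intervalIntegral.integral_comp_mul_deriv''' (a := 1) (b := √(M:ℝ)) (f := fun z : ℝ => z^2)
    (f' := fun z => 2 * z) (g := fun y => fy δ n v y * (Real.log y + 2 * Real.eulerMascheroniConstant))
    (by fun_prop)
    (fun z hz => by
      have := hasDerivAt_pow 2 z
      simp only [Nat.cast_ofNat, Nat.add_one_sub_one, pow_one] at this
      exact this.hasDerivWithinAt)
    ?_ ?_ ?_
  · simp only [one_pow, Real.sq_sqrt (by linarith : (0:ℝ) ≤ M)] at h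
    rw [← h]
    apply intervalIntegral.integral_congr
    intro z hz
    rw [Set.uIcc_of_le hs] at hz
    have hz0 : 0 < z := by linarith [hz.1]
    simp only [Function.comp_apply]
    unfold fy qf
    rw [Real.sqrt_sq hz0.le, Real.log_pow]
    have e : (z^2) ^ (-(3/4) : ℝ) * z = z ^ (-(1/2) : ℝ) := by
      rw [← Real.rpow_natCast, ← Real.rpow_mul hz0.le]
      nth_rewrite 2 [← Real.rpow_one z]
      rw [← Real.rpow_add hz0]
      norm_num
    rw [← e]
    push_cast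
    ring
  · apply ContinuousOn.mono (s := Set.Ioi 0) (gcont hδ hn v)
    rintro y ⟨z, hz, rfl⟩
    rw [min_eq_left hs, max_eq_right hs] at hz
    have : 0 < z := by linarith [hz.1]
    exact pow_pos this 2
  · apply ContinuousOn.integrableOn_compact
    · exact isCompact_uIcc.image (by fun_prop)
    · apply ContinuousOn.mono (s := Set.Ioi 0) (gcont hδ hn v)
      rintro y ⟨z, hz, rfl⟩
      rw [Set.uIcc_of_le hs] at hz
      have : 0 < z := by linarith [hz.1]
      exact pow_pos this 2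
  · apply ContinuousOn.integrableOn_compact isCompact_uIcc
    apply ContinuousOn.mul _ (by fun_prop)
    apply ContinuousOn.comp (t := Set.Ioi 0) (gcont hδ hn v) (by fun_prop)
    intro z hz
    rw [Set.uIcc_of_le hs] at hz
    have : 0 < z := by linarith [hz.1]
    exact pow_pos this 2

lemma Qn_eq {δ : ℝ} (hδ : 0 < δ) {n : ℕ} (hn : 2 ≤ n) (v : ℝ) :
    Qn δ n 0 v = (∫ z in Set.Ioc (0:ℝ) 1, qf δ n v z) + ∫ z in Set.Ioi (1:ℝ), qf δ n v z := by
  rw [← setIntegral_union (Set.Ioc_disjoint_Ioi le_rfl) measurableSet_Ioi (qf_int_bot hδ n v) (qf_int_top hδ hn v),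
    Set.Ioc_union_Ioi_eq_Ioi zero_le_one]
  unfold Qn qf
  apply integral_congr_ae
  refine Eventually.of_forall (fun z => ?_)
  simp

lemma fy_dv_summable {δ : ℝ} (hδ : 0 < δ) {n : ℕ} (hn : 2 ≤ n) (v : ℝ) :
    Summable (fun m : ℕ => fy δ n v m * dv m) := by
  have h := (tn_summable hδ hn (-v)).mul_left (Real.pi * √2)
  refine h.congr (fun m => ?_)
  unfold tn fy Cn
  have e : (2 * √(m:ℝ) * (-v)) = -(2 * √(m:ℝ) * v) := by ring
  rw [e]
  have hp : Real.pi * √2 ≠ 0 := by positivity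
  field_simp

/-- TASK C2 -/
theorem sum_sub_Qn : ∃ C : ℝ, 0 < C ∧ ∀ (n : ℕ) (δ v : ℝ), 2 ≤ n → 0 < δ → n * δ ≤ v → v ≤ 1 →
    |∑' m : ℕ, dv m * (m : ℝ) ^ (-(3/4) : ℝ) * Cn δ n (√(m : ℝ)) v - Qn δ n 0 v| ≤ C * (1 + v / δ) := by
  refine ⟨200, by norm_num, ?_⟩
  intro n δ v hn hδ hv hv1
  have hn1 : 1 ≤ n := by omega
  have hn' : (1:ℝ) ≤ n := by exact_mod_cast hn1
  have hv0 : 0 ≤ v := by nlinarith
  have hvd : 0 ≤ v / δ := by positivity
  have hsum := fy_dv_summable hδ hn v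
  have e1 : ∑' m : ℕ, dv m * (m : ℝ) ^ (-(3/4) : ℝ) * Cn δ n (√(m : ℝ)) v = ∑' m : ℕ, fy δ n v m * dv m := by
    apply tsum_congr
    intro m
    unfold fy
    ring
  rw [e1, Qn_eq hδ hn v]
  have t1 : Tendsto (fun M : ℕ => ∑ m ∈ Finset.Icc 0 M, fy δ n v m * dv m) atTop (𝓝 (∑' m : ℕ, fy δ n v m * dv m)) := by
    have h := (hsum.hasSum.tendsto_sum_nat).comp (tendsto_add_atTop_nat 1)
    refine h.congr (fun M => ?_)
    simp only [Function.comp_apply]
    apply Finset.sum_congr _ (fun _ _ => rfl)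
    ext k; simp only [Finset.mem_Icc, Finset.mem_range]; omega
  have t2 : Tendsto (fun M : ℕ => ∫ z in (1:ℝ)..√(M:ℝ), qf δ n v z) atTop (𝓝 (∫ z in Set.Ioi (1:ℝ), qf δ n v z)) := by
    apply intervalIntegral_tendsto_integral_Ioi 1 (qf_int_top hδ hn v)
    exact Real.tendsto_sqrt_atTop.comp tendsto_natCast_atTop_atTop
  have t3 := (t1.sub t2).abs
  have hle : |∑' m : ℕ, fy δ n v m * dv m - ∫ z in Set.Ioi (1:ℝ), qf δ n v z| ≤ 13 + 48 * (1 + 2 * (v/δ)) := by
    apply le_of_tendsto t3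
    filter_upwards [eventually_ge_atTop 1] with M hM
    rw [← subst_sq hδ hn1 v hM]
    exact part_sum hδ hn1 hv hM
  have hb := qf_bot_le (δ := δ) n v
  rw [abs_le] at hle hb ⊢
  constructor <;> linarith [hle.1, hle.2, hb.1, hb.2]

end Pool.Agent.H383.OM
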