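import Mathlib
import Pool.Agent.H383.OM.C2c
import Pool.Agent.H387R2.OmC3

open MeasureTheory Filter Topology
open Pool.Agent.H387R2.Vor

namespace Pool.Agent.H383.OM

theorem Qn_le {n : ℕ} (hn : 1 ≤ n) {δ v : ℝ} (hδ : 0 < δ) (hv : n * δ < v) :
    Qn δ n 0 v ≤ -Real.pi * v ^ (-(1/2) : ℝ) :=
  Pool.Agent.H387R2.OmC3.Qn_le hn hδ hv

end Pool.Agent.H383.OM
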