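import Mathlib
import Pool.Agent.H383.DivA

open Filter Topology
open Pool.Agent.H387R2.Vor
open Pool.Agent.H383.Div (dv_nonneg Dsum_eq harm_real)

namespace Pool.Agent.H383.OM

lemma Dn_le {N : ℕ} (hN : 1 ≤ N) : ∑ m ∈ Finset.Icc 1 N, dv m ≤ N * (1 + Real.log N) := by
  have h0 := Dsum_eq (N:ℝ)
  unfold Dsum at h0
  rw [Nat.floor_natCast] at h0
  rw [h0]
  have h2 := harmonic_le_one_add_log N
  rw [harm_real] at h2
  calc ∑ n ∈ Finset.Icc 1 N, ((N / n : ℕ) : ℝ) ≤ ∑ n ∈ Finset.Icc 1 N, (N:ℝ) * (1/n) := by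
        apply Finset.sum_le_sum
        intro n hn
        refine (Nat.cast_div_le).trans ?_
        rw [mul_one_div]
    _ = N * ∑ n ∈ Finset.Icc 1 N, (1:ℝ)/n := by rw [Finset.mul_sum]
    _ ≤ _ := by gcongr

lemma one_add_log_pos {N : ℕ} (hN : 1 ≤ N) : 1 ≤ 1 + Real.log N := by
  have : 0 ≤ Real.log N := Real.log_nonneg (by exact_mod_cast hN)
  linarith

lemma S1_le (N : ℕ) (hN : 1 ≤ N) :
    ∑ m ∈ Finset.Icc 1 N, dv m * (m:ℝ) ^ (-(3/4):ℝ) ≤ 11 * (N:ℝ) ^ (1/4:ℝ) * (1 + Real.log N) := by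
  induction N using Nat.strong_induction_on with
  | _ N ih =>
    rcases Nat.lt_or_ge N 2 with h1 | h1
    · have : N = 1 := by omega
      subst this
      simp [dv]
    · have hN0 : (0:ℝ) < N := by exact_mod_cast hN
      have hM : 1 ≤ N / 2 := by omega
      have hM2 : N / 2 < N := by omega
      have hMR : ((N/2 : ℕ):ℝ) ≤ N / 2 := Nat.cast_div_le
      have hM0 : (0:ℝ) < ((N/2 : ℕ):ℝ) := by exact_mod_cast hM
      have h2 := ih (N/2) hM2 hM
      have hL := one_add_log_pos hN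
      have hlog : Real.log ((N/2 : ℕ):ℝ) ≤ Real.log N := Real.log_le_log hM0 (by linarith)
      have hr : ((N/2 : ℕ):ℝ) ^ (1/4:ℝ) ≤ (N:ℝ) ^ (1/4:ℝ) * (841/1000) := by
        calc ((N/2 : ℕ):ℝ) ^ (1/4:ℝ) ≤ ((N:ℝ) * (1/2)) ^ (1/4:ℝ) :=
              Real.rpow_le_rpow hM0.le (by linarith) (by norm_num)
          _ = (N:ℝ) ^ (1/4:ℝ) * (1/2:ℝ) ^ (1/4:ℝ) := Real.mul_rpow hN0.le (by norm_num)
          _ ≤ _ := by
            apply mul_le_mul_of_nonneg_left _ (by positivity)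
            have e : (1/2:ℝ) ^ (1/4:ℝ) = √(√(1/2)) := by
              rw [Real.sqrt_eq_rpow, Real.sqrt_eq_rpow, ← Real.rpow_mul (by norm_num)]; norm_num
            rw [e]
            rw [Real.sqrt_le_left (by norm_num), Real.sqrt_le_left (by norm_num)]
            norm_num
      have hsplit : Finset.Icc 1 N = Finset.Icc 1 (N/2) ∪ Finset.Ioc (N/2) N := by
        ext x; simp only [Finset.mem_Icc, Finset.mem_union, Finset.mem_Ioc]; omega
      have hdisj : Disjoint (Finset.Icc 1 (N/2)) (Finset.Ioc (N/2) N) := by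
        rw [Finset.disjoint_left]; intro x hx; simp only [Finset.mem_Icc, Finset.mem_Ioc] at hx ⊢; omega
      rw [hsplit, Finset.sum_union hdisj]
      have h3 : ∑ m ∈ Finset.Ioc (N/2) N, dv m * (m:ℝ) ^ (-(3/4):ℝ) ≤ (N:ℝ) ^ (1/4:ℝ) * (17/10) * (1 + Real.log N) := by
        have h4 : ∀ m ∈ Finset.Ioc (N/2) N, dv m * (m:ℝ) ^ (-(3/4):ℝ) ≤ dv m * (((N:ℝ)/2) ^ (-(3/4):ℝ)) := by
          intro m hm
          rw [Finset.mem_Ioc] at hm
          apply mul_le_mul_of_nonneg_left _ (dv_nonneg m)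
          apply Real.rpow_le_rpow_of_nonpos (by positivity) _ (by norm_num)
          have : N < 2 * m := by omega
          have : (N:ℝ) < 2 * m := by exact_mod_cast this
          linarith
        calc _ ≤ ∑ m ∈ Finset.Ioc (N/2) N, dv m * (((N:ℝ)/2) ^ (-(3/4):ℝ)) := Finset.sum_le_sum h4
          _ = (∑ m ∈ Finset.Ioc (N/2) N, dv m) * (((N:ℝ)/2) ^ (-(3/4):ℝ)) := by rw [Finset.sum_mul]
          _ ≤ (∑ m ∈ Finset.Icc 1 N, dv m) * (((N:ℝ)/2) ^ (-(3/4):ℝ)) := by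
              apply mul_le_mul_of_nonneg_right _ (by positivity)
              apply Finset.sum_le_sum_of_subset_of_nonneg
              · rw [hsplit]; exact Finset.subset_union_right
              · intro m _ _; exact dv_nonneg m
          _ ≤ (N * (1 + Real.log N)) * (((N:ℝ)/2) ^ (-(3/4):ℝ)) := by
              apply mul_le_mul_of_nonneg_right (Dn_le hN) (by positivity)
          _ ≤ _ := by
              have e1 : ((N:ℝ)/2) ^ (-(3/4):ℝ) ≤ (N:ℝ) ^ (-(3/4):ℝ) * (17/10) := by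
                rw [div_eq_mul_inv, Real.mul_rpow hN0.le (by norm_num)]
                apply mul_le_mul_of_nonneg_left _ (by positivity)
                rw [Real.inv_rpow (by norm_num), Real.rpow_neg (by norm_num), inv_inv]
                have e : (2:ℝ) ^ (3/4:ℝ) = √(√8) := by
                  rw [Real.sqrt_eq_rpow, Real.sqrt_eq_rpow, ← Real.rpow_mul (by norm_num),
                    show (8:ℝ) = 2 ^ (3:ℝ) by norm_num, ← Real.rpow_mul (by norm_num)]; norm_num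
                rw [e, Real.sqrt_le_left (by norm_num), Real.sqrt_le_left (by norm_num)]
                norm_num
              have e2 : (N:ℝ) * (N:ℝ) ^ (-(3/4):ℝ) = (N:ℝ) ^ (1/4:ℝ) := by
                nth_rewrite 1 [← Real.rpow_one (N:ℝ)]
                rw [← Real.rpow_add hN0]; norm_num
              calc (N * (1 + Real.log N)) * (((N:ℝ)/2) ^ (-(3/4):ℝ)) ≤
                  (N * (1 + Real.log N)) * ((N:ℝ) ^ (-(3/4):ℝ) * (17/10)) := by gcongr
                _ = ((N:ℝ) * (N:ℝ) ^ (-(3/4):ℝ)) * (17/10) * (1 + Real.log N) := by ring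
                _ = _ := by rw [e2]
      have hp : 0 ≤ (N:ℝ) ^ (1/4:ℝ) := by positivity
      have h5 : 11 * ((N/2 : ℕ):ℝ) ^ (1/4:ℝ) * (1 + Real.log ((N/2 : ℕ):ℝ)) ≤
          11 * ((N:ℝ) ^ (1/4:ℝ) * (841/1000)) * (1 + Real.log N) := by
        have : 0 ≤ 1 + Real.log ((N/2 : ℕ):ℝ) := by linarith [one_add_log_pos hM]
        gcongr
      nlinarith [mul_nonneg hp (by linarith : 0 ≤ 1 + Real.log N)]

lemma D54 {N M : ℕ} (hN : 1 ≤ N) (hM : N ≤ M) :
    ∑ m ∈ Finset.Icc 1 M, dv m ≤ 5 * (1 + Real.log N) * (N:ℝ) ^ (-(1/4):ℝ) * (M:ℝ) ^ (5/4:ℝ) := by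
  have hN0 : (0:ℝ) < N := by exact_mod_cast hN
  have hNM : (N:ℝ) ≤ M := by exact_mod_cast hM
  have hM0 : (0:ℝ) < M := by linarith
  have hL := one_add_log_pos hN
  refine (Dn_le (hN.trans hM)).trans ?_
  have h1 : Real.log M = Real.log N + Real.log ((M:ℝ)/N) := by
    rw [Real.log_div hM0.ne' hN0.ne']; ring
  have hr : 1 ≤ (M:ℝ)/N := by rw [le_div_iff₀ hN0]; linarith
  have h2 : Real.log ((M:ℝ)/N) ≤ 4 * ((M:ℝ)/N) ^ (1/4:ℝ) := by
    have := Real.log_le_rpow_div (by positivity : (0:ℝ) ≤ (M:ℝ)/N) (by norm_num : (0:ℝ) < 1/4)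
    linarith
  have h3 : 1 ≤ ((M:ℝ)/N) ^ (1/4:ℝ) := Real.one_le_rpow hr (by norm_num)
  have h4 : 1 + Real.log M ≤ 5 * (1 + Real.log N) * ((M:ℝ)/N) ^ (1/4:ℝ) := by
    rw [h1]; nlinarith
  have h5 : ((M:ℝ)/N) ^ (1/4:ℝ) = (N:ℝ) ^ (-(1/4):ℝ) * (M:ℝ) ^ (1/4:ℝ) := by
    rw [Real.div_rpow hM0.le hN0.le, Real.rpow_neg hN0.le]; field_simp
  have h6 : (M:ℝ) ^ (5/4:ℝ) = M * (M:ℝ) ^ (1/4:ℝ) := by
    nth_rewrite 2 [← Real.rpow_one (M:ℝ)]
    rw [← Real.rpow_add hM0]; norm_num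
  rw [h5] at h4
  rw [h6]
  calc (M:ℝ) * (1 + Real.log M) ≤ M * (5 * (1 + Real.log N) * ((N:ℝ) ^ (-(1/4):ℝ) * (M:ℝ) ^ (1/4:ℝ))) := by gcongr
    _ = _ := by ring

lemma S2_block {N : ℕ} (hN : 1 ≤ N) (I : ℕ) :
    ∑ m ∈ Finset.Ioc N (2^I * N), dv m * (m:ℝ) ^ (-(11/4):ℝ) ≤
      (12 * (1 + Real.log N) * (N:ℝ) ^ (-(7/4):ℝ)) * ∑ i ∈ Finset.range I, (1/2:ℝ)^i := by
  have hN0 : (0:ℝ) < N := by exact_mod_cast hN
  have hL := one_add_log_pos hN
  induction I with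
  | zero => simp
  | succ I ih =>
    have hsplit : Finset.Ioc N (2^(I+1) * N) = Finset.Ioc N (2^I * N) ∪ Finset.Ioc (2^I * N) (2^(I+1)*N) := by
      have h1 : N ≤ 2^I * N := Nat.le_mul_of_pos_left N (by positivity)
      have h2 : 2^I * N ≤ 2^(I+1) * N := by rw [pow_succ]; nlinarith
      rw [Finset.Ioc_union_Ioc_eq_Ioc h1 h2]
    have hdisj : Disjoint (Finset.Ioc N (2^I * N)) (Finset.Ioc (2^I * N) (2^(I+1)*N)) := by
      rw [Finset.disjoint_left]; intro x hx; simp only [Finset.mem_Ioc] at hx ⊢; omega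
    rw [hsplit, Finset.sum_union hdisj, Finset.sum_range_succ, mul_add]
    apply add_le_add ih
    set B : ℝ := (2:ℝ)^I * N with hB
    have hB0 : 0 < B := by positivity
    have hBc : ((2^I * N : ℕ):ℝ) = B := by rw [hB]; push_cast; ring
    have h3 : ∀ m ∈ Finset.Ioc (2^I * N) (2^(I+1)*N), dv m * (m:ℝ) ^ (-(11/4):ℝ) ≤ dv m * (B ^ (-(11/4):ℝ)) := by
      intro m hm
      rw [Finset.mem_Ioc] at hm
      apply mul_le_mul_of_nonneg_left _ (dv_nonneg m)
      apply Real.rpow_le_rpow_of_nonpos hB0 _ (by norm_num)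
      rw [← hBc]
      exact_mod_cast hm.1.le
    have h4 : ((2^(I+1) * N : ℕ):ℝ) = 2 * B := by rw [hB]; push_cast; ring
    have h5 := D54 hN (M := 2^(I+1) * N) (Nat.le_mul_of_pos_left N (by positivity))
    rw [h4] at h5
    calc _ ≤ ∑ m ∈ Finset.Ioc (2^I * N) (2^(I+1)*N), dv m * (B ^ (-(11/4):ℝ)) := Finset.sum_le_sum h3
      _ = (∑ m ∈ Finset.Ioc (2^I * N) (2^(I+1)*N), dv m) * (B ^ (-(11/4):ℝ)) := by rw [Finset.sum_mul]
      _ ≤ (∑ m ∈ Finset.Icc 1 (2^(I+1)*N), dv m) * (B ^ (-(11/4):ℝ)) := by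
          apply mul_le_mul_of_nonneg_right _ (by positivity)
          apply Finset.sum_le_sum_of_subset_of_nonneg
          · intro x hx; simp only [Finset.mem_Ioc, Finset.mem_Icc] at hx ⊢; omega
          · intro m _ _; exact dv_nonneg m
      _ ≤ (5 * (1 + Real.log N) * (N:ℝ) ^ (-(1/4):ℝ) * (2 * B) ^ (5/4:ℝ)) * (B ^ (-(11/4):ℝ)) := by
          apply mul_le_mul_of_nonneg_right h5 (by positivity)
      _ = 5 * (1 + Real.log N) * (N:ℝ) ^ (-(1/4):ℝ) * (2:ℝ) ^ (5/4:ℝ) * B ^ (-(3/2):ℝ) := by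
          rw [Real.mul_rpow (by norm_num) hB0.le]
          have : B ^ (5/4:ℝ) * B ^ (-(11/4):ℝ) = B ^ (-(3/2):ℝ) := by
            rw [← Real.rpow_add hB0]; norm_num
          rw [← this]; ring
      _ ≤ 5 * (1 + Real.log N) * (N:ℝ) ^ (-(1/4):ℝ) * (12/5) * ((1/2)^I * (N:ℝ) ^ (-(3/2):ℝ)) := by
          have e1 : (2:ℝ) ^ (5/4:ℝ) ≤ 12/5 := by
            have e : (2:ℝ) ^ (5/4:ℝ) = √(√32) := by
              rw [Real.sqrt_eq_rpow, Real.sqrt_eq_rpow, ← Real.rpow_mul (by norm_num),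
                show (32:ℝ) = 2 ^ (5:ℝ) by norm_num, ← Real.rpow_mul (by norm_num)]; norm_num
            rw [e, Real.sqrt_le_left (by norm_num), Real.sqrt_le_left (by norm_num)]
            norm_num
          have e2 : B ^ (-(3/2):ℝ) ≤ (1/2)^I * (N:ℝ) ^ (-(3/2):ℝ) := by
            rw [hB, Real.mul_rpow (by positivity) hN0.le]
            apply mul_le_mul_of_nonneg_right _ (by positivity)
            rw [Real.rpow_neg (by positivity), ← Real.rpow_natCast, ← Real.rpow_mul (by norm_num),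
              one_div, inv_pow, ← Real.rpow_natCast]
            apply inv_anti₀ (by positivity)
            apply Real.rpow_le_rpow_of_exponent_le (by norm_num)
            have : (0:ℝ) ≤ I := by positivity
            linarith
          gcongr
      _ = _ := by
          have e3 : (N:ℝ) ^ (-(1/4):ℝ) * (N:ℝ) ^ (-(3/2):ℝ) = (N:ℝ) ^ (-(7/4):ℝ) := by
            rw [← Real.rpow_add hN0]; norm_num
          rw [← e3]; ring

/-- the tail -/
noncomputable def tl (N : ℕ) (m : ℕ) : ℝ := if N < m then dv m * (m:ℝ) ^ (-(11/4):ℝ) else 0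

lemma tl_nonneg (N m : ℕ) : 0 ≤ tl N m := by
  unfold tl
  split_ifs
  · have := dv_nonneg m; positivity
  · exact le_rfl

lemma tl_range {N : ℕ} (hN : 1 ≤ N) (M : ℕ) : ∑ m ∈ Finset.range M, tl N m ≤ 24 * (1 + Real.log N) * (N:ℝ) ^ (-(7/4):ℝ) := by
  have hL := one_add_log_pos hN
  have hN0 : (0:ℝ) < N := by exact_mod_cast hN
  have h1 : M ≤ 2^M * N := by
    calc M ≤ 2^M := Nat.lt_two_pow_self.le
      _ ≤ 2^M * N := Nat.le_mul_of_pos_right _ hN
  have h2 : ∑ m ∈ Finset.range M, tl N m ≤ ∑ m ∈ Finset.Ioc N (2^M * N), dv m * (m:ℝ) ^ (-(11/4):ℝ) := by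
    have e : ∑ m ∈ Finset.range M, tl N m = ∑ m ∈ (Finset.range M).filter (fun m => N < m), dv m * (m:ℝ) ^ (-(11/4):ℝ) := by
      rw [Finset.sum_filter]; rfl
    rw [e]
    apply Finset.sum_le_sum_of_subset_of_nonneg
    · intro x hx
      simp only [Finset.mem_filter, Finset.mem_range, Finset.mem_Ioc] at hx ⊢
      omega
    · intro m _ _; have := dv_nonneg m; positivity
  refine h2.trans ((S2_block hN M).trans ?_)
  have h3 : ∑ i ∈ Finset.range M, (1/2:ℝ)^i ≤ 2 := by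
    have := geom_sum_eq (by norm_num : (1/2:ℝ) ≠ 1) M
    rw [this]
    have : 0 ≤ (1/2:ℝ)^M := by positivity
    rw [div_le_iff_of_neg (by norm_num)]
    linarith
  calc _ ≤ (12 * (1 + Real.log N) * (N:ℝ) ^ (-(7/4):ℝ)) * 2 := by gcongr
    _ = _ := by ring

lemma tl_summable {N : ℕ} (hN : 1 ≤ N) : Summable (tl N) :=
  summable_of_sum_range_le (tl_nonneg N) (tl_range hN)

lemma tl_tsum {N : ℕ} (hN : 1 ≤ N) : ∑' m, tl N m ≤ 24 * (1 + Real.log N) * (N:ℝ) ^ (-(7/4):ℝ) :=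
  Real.tsum_le_of_sum_range_le (tl_nonneg N) (tl_range hN)

end Pool.Agent.H383.OM
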