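import Mathlib
import Pool.Agent.H383.OM.A
import Pool.Agent.H383.OM.B
import Pool.Agent.H383.OM.D
import Pool.Agent.H383.OM.C

open MeasureTheory Filter Topology
open Pool.Agent.H387R2.Vor

namespace Pool.Agent.H383.OM

/-- the shifted main series -/
noncomputable def bn (δ : ℝ) (n : ℕ) (v : ℝ) (m : ℕ) : ℝ :=
  (1 / (Real.pi * √2)) * (dv m * (m : ℝ) ^ (-(3/4) : ℝ) * Cn δ n (√(m : ℝ)) v)

lemma bn_eq_tn (δ : ℝ) (n : ℕ) (v : ℝ) (m : ℕ) : bn δ n v m = tn δ n (-v) m := by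
  unfold bn tn Cn
  rw [show -(2 * √(m:ℝ) * v) = 2 * √(m:ℝ) * (-v) by ring]
  ring

lemma tn_shift (δ : ℝ) (n : ℕ) (τ v : ℝ) (m : ℕ) : |tn δ n (τ - v) m - bn δ n v m| ≤
    dv m * (m : ℝ) ^ (-(3/4) : ℝ) * (1/4) * (‖ex (2 * √(m:ℝ) * τ) - 1‖ * ‖cf (2 * √(m:ℝ) * δ)‖ ^ n) := by
  rw [bn_eq_tn]
  unfold tn
  have hd := Pool.Agent.H383.Div.dv_nonneg m
  rw [← mul_sub, ← Complex.sub_re, abs_mul]
  have hpi := Real.pi_gt_three
  have h2 : (4:ℝ)/3 ≤ √2 := Real.le_sqrt_of_sq_le (by norm_num)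
  have h3 : |dv m * (m : ℝ) ^ (-(3 / 4) : ℝ) * (1 / (Real.pi * √2))| ≤ dv m * (m : ℝ) ^ (-(3/4) : ℝ) * (1/4) := by
    rw [abs_of_nonneg (by positivity)]
    have : 1 / (Real.pi * √2) ≤ 1/4 := by
      apply one_div_le_one_div_of_le (by norm_num); nlinarith
    gcongr
  have h4 : ‖om * ex (2 * √(m:ℝ) * (τ - v)) * cf (2 * √(m:ℝ) * δ) ^ n -
      om * ex (2 * √(m:ℝ) * (-v)) * cf (2 * √(m:ℝ) * δ) ^ n‖ =
      ‖ex (2 * √(m:ℝ) * τ) - 1‖ * ‖cf (2 * √(m:ℝ) * δ)‖ ^ n := by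
    have e : om * ex (2 * √(m:ℝ) * (τ - v)) * cf (2 * √(m:ℝ) * δ) ^ n -
      om * ex (2 * √(m:ℝ) * (-v)) * cf (2 * √(m:ℝ) * δ) ^ n =
      om * ex (2 * √(m:ℝ) * (-v)) * ((ex (2 * √(m:ℝ) * τ) - 1) * cf (2 * √(m:ℝ) * δ) ^ n) := by
      rw [show 2 * √(m:ℝ) * (τ - v) = 2 * √(m:ℝ) * τ + 2 * √(m:ℝ) * (-v) by ring, ex_add]
      ring
    rw [e, norm_mul, norm_mul, norm_om, norm_ex, norm_mul, norm_pow]
    ring
  have h5 := Complex.abs_re_le_norm (om * ex (2 * √(m:ℝ) * (τ - v)) * cf (2 * √(m:ℝ) * δ) ^ n -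
      om * ex (2 * √(m:ℝ) * (-v)) * cf (2 * √(m:ℝ) * δ) ^ n)
  rw [h4] at h5
  exact mul_le_mul h3 h5 (abs_nonneg _) (by positivity)

lemma cf_pow_le {N n m : ℕ} (hN : 1 ≤ N) (hn : 4 ≤ n) (hm : N < m) :
    ‖cf (2 * √(m:ℝ) * (1 / (2 * √(N:ℝ))))‖ ^ n ≤ (1 / Real.pi) ^ n * ((N:ℝ)^2 * (m:ℝ) ^ (-2:ℝ)) := by
  have hN0 : (0:ℝ) < N := by exact_mod_cast hN
  have hNm : (N:ℝ) < m := by exact_mod_cast hm
  have hm0 : (0:ℝ) < m := by linarith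
  have hs : 0 < √(m:ℝ) := Real.sqrt_pos.mpr hm0
  have hs' : 0 < √(N:ℝ) := Real.sqrt_pos.mpr hN0
  have hpi := Real.pi_pos
  have h1 := cf_le (y := 2 * √(m:ℝ) * (1 / (2 * √(N:ℝ)))) (by positivity)
  have h2 : 1 / (Real.pi * (2 * √(m:ℝ) * (1 / (2 * √(N:ℝ))))) = (1 / Real.pi) * (√(N:ℝ) / √(m:ℝ)) := by
    field_simp
  rw [h2] at h1
  have h3 : √(N:ℝ) / √(m:ℝ) ≤ 1 := by
    rw [div_le_one hs]; exact Real.sqrt_le_sqrt hNm.le
  calc _ ≤ ((1 / Real.pi) * (√(N:ℝ) / √(m:ℝ))) ^ n := pow_le_pow_left₀ (norm_nonneg _) h1 n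
    _ = (1 / Real.pi) ^ n * (√(N:ℝ) / √(m:ℝ)) ^ n := mul_pow _ _ _
    _ ≤ (1 / Real.pi) ^ n * (√(N:ℝ) / √(m:ℝ)) ^ 4 := by
        apply mul_le_mul_of_nonneg_left _ (by positivity)
        exact pow_le_pow_of_le_one (by positivity) h3 hn
    _ = _ := by
        congr 1
        rw [div_pow, show √(N:ℝ)^4 = (√(N:ℝ)^2)^2 by ring, show √(m:ℝ)^4 = (√(m:ℝ)^2)^2 by ring,
          Real.sq_sqrt hN0.le, Real.sq_sqrt hm0.le, Real.rpow_neg hm0.le]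
        norm_cast

lemma shift_sum {N n q : ℕ} (hN : 1 ≤ N) (hn : 4 ≤ n) (hq : 1 ≤ q) {τ v : ℝ}
    (hτ : ∀ m : ℕ, m ≤ N → ∃ k : ℤ, |2 * √(m:ℝ) * τ - k| ≤ 1 / q) :
    |∑' m, tn (1 / (2 * √(N:ℝ))) n (τ - v) m - ∑' m, bn (1 / (2 * √(N:ℝ))) n v m| ≤
      20 * (N:ℝ) ^ (1/4:ℝ) * (1 + Real.log N) / q + 12 * (1 / Real.pi) ^ n * (N:ℝ) ^ (1/4:ℝ) * (1 + Real.log N) := by
  have hN0 : (0:ℝ) < N := by exact_mod_cast hN
  have hq0 : (0:ℝ) < q := by exact_mod_cast hq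
  have hL := one_add_log_pos hN
  have hpi := Real.pi_pos
  set δ : ℝ := 1 / (2 * √(N:ℝ)) with hδ
  have hδ0 : 0 < δ := by rw [hδ]; have := Real.sqrt_pos.mpr hN0; positivity
  have hs1 : Summable (tn δ n (τ - v)) := tn_summable hδ0 (by omega) _
  have hs2 : Summable (bn δ n v) := by
    have : bn δ n v = tn δ n (-v) := by funext m; exact bn_eq_tn δ n v m
    rw [this]; exact tn_summable hδ0 (by omega) _
  -- majorant
  set g : ℕ → ℝ := fun m => (if m ∈ Finset.Icc 1 N then dv m * (m:ℝ) ^ (-(3/4):ℝ) * (7/4/q) else 0) +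
    (1/2) * (1 / Real.pi) ^ n * (N:ℝ)^2 * tl N m with hg
  have hg1 : Summable (fun m => if m ∈ Finset.Icc 1 N then dv m * (m:ℝ) ^ (-(3/4):ℝ) * (7/4/q) else 0) :=
    summable_of_ne_finset_zero (s := Finset.Icc 1 N) (fun m hm => by simp only [hm, if_false])
  have hg2 : Summable (fun m => (1/2) * (1 / Real.pi) ^ n * (N:ℝ)^2 * tl N m) := (tl_summable hN).mul_left _
  have hgs : Summable g := hg1.add hg2
  have hle : ∀ m, |tn δ n (τ - v) m - bn δ n v m| ≤ g m := by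
    intro m
    have h0 := tn_shift δ n τ v m
    have hd := Pool.Agent.H383.Div.dv_nonneg m
    have htl := tl_nonneg N m
    rcases Nat.lt_or_ge N m with h1 | h1
    · -- large m
      have h2 : ‖ex (2 * √(m:ℝ) * τ) - 1‖ ≤ 2 := by
        calc _ ≤ ‖ex (2 * √(m:ℝ) * τ)‖ + ‖(1:ℂ)‖ := norm_sub_le _ _
          _ = 2 := by rw [norm_ex, norm_one]; norm_num
      have h3 := cf_pow_le hN hn h1
      rw [← hδ] at h3
      have hm0 : (0:ℝ) < m := by exact_mod_cast (by omega : 0 < m)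
      have h4 : g m = (1/2) * (1 / Real.pi) ^ n * (N:ℝ)^2 * (dv m * (m:ℝ) ^ (-(11/4):ℝ)) := by
        rw [hg]
        simp only [Finset.mem_Icc]
        rw [if_neg (by omega), zero_add]
        unfold tl
        rw [if_pos h1]
      rw [h4]
      refine h0.trans ?_
      calc dv m * (m : ℝ) ^ (-(3/4) : ℝ) * (1/4) * (‖ex (2 * √(m:ℝ) * τ) - 1‖ * ‖cf (2 * √(m:ℝ) * δ)‖ ^ n) ≤
          dv m * (m : ℝ) ^ (-(3/4) : ℝ) * (1/4) * (2 * ((1 / Real.pi) ^ n * ((N:ℝ)^2 * (m:ℝ) ^ (-2:ℝ)))) := by gcongr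
        _ = (1/2) * (1 / Real.pi) ^ n * (N:ℝ)^2 * (dv m * ((m : ℝ) ^ (-(3/4) : ℝ) * (m:ℝ) ^ (-2:ℝ))) := by ring
        _ = _ := by rw [← Real.rpow_add hm0]; norm_num
    · obtain ⟨k, hk⟩ := hτ m h1
      have h2 : ‖ex (2 * √(m:ℝ) * τ) - 1‖ ≤ 2 * Real.pi * (1/q) := ex_near k hk
      have h3 : ‖cf (2 * √(m:ℝ) * δ)‖ ^ n ≤ 1 := pow_le_one₀ (norm_nonneg _) (cf_le_one _)
      rcases Nat.eq_zero_or_pos m with h5 | h5
      · subst h5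
        simp only [dv] at h0 ⊢
        have : 0 ≤ g 0 := by
          rw [hg]; simp only [Finset.mem_Icc]
          rw [if_neg (by omega)]
          positivity
        simp only [Nat.divisors_zero, Finset.card_empty, Nat.cast_zero, zero_mul] at h0
        exact h0.trans this
      · have h4 : g m = dv m * (m:ℝ) ^ (-(3/4):ℝ) * (7/4/q) := by
          rw [hg]
          simp only [Finset.mem_Icc]
          rw [if_pos ⟨h5, h1⟩]
          unfold tl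
          rw [if_neg (by omega), mul_zero, add_zero]
        rw [h4]
        refine h0.trans ?_
        have hpi4 := Real.pi_lt_d2
        calc dv m * (m : ℝ) ^ (-(3/4) : ℝ) * (1/4) * (‖ex (2 * √(m:ℝ) * τ) - 1‖ * ‖cf (2 * √(m:ℝ) * δ)‖ ^ n) ≤
            dv m * (m : ℝ) ^ (-(3/4) : ℝ) * (1/4) * ((2 * Real.pi * (1/q)) * 1) := by gcongr
          _ = dv m * (m : ℝ) ^ (-(3/4) : ℝ) * ((Real.pi / 2) / q) := by ring
          _ ≤ _ := by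
            apply mul_le_mul_of_nonneg_left _ (by positivity)
            apply div_le_div_of_nonneg_right _ hq0.le
            linarith
  rw [← hs1.tsum_sub hs2]
  have h6 : |∑' m, (tn δ n (τ - v) m - bn δ n v m)| ≤ ∑' m, g m := by
    rw [← Real.norm_eq_abs]
    exact tsum_of_norm_bounded hgs.hasSum (fun m => by rw [Real.norm_eq_abs]; exact hle m)
  refine h6.trans ?_
  rw [hg, hg1.tsum_add hg2, tsum_mul_left]
  apply add_le_add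
  · rw [tsum_eq_sum (s := Finset.Icc 1 N) (fun m hm => by simp only [hm, if_false])]
    rw [Finset.sum_ite_mem, Finset.inter_self, ← Finset.sum_mul]
    have h7 := S1_le N hN
    calc (∑ m ∈ Finset.Icc 1 N, dv m * (m:ℝ) ^ (-(3/4):ℝ)) * (7/4/q) ≤
        (11 * (N:ℝ) ^ (1/4:ℝ) * (1 + Real.log N)) * (7/4/q) := by gcongr
      _ = (77/4) * (N:ℝ) ^ (1/4:ℝ) * (1 + Real.log N) / q := by ring
      _ ≤ _ := by
        apply div_le_div_of_nonneg_right _ hq0.le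
        have : 0 ≤ (N:ℝ) ^ (1/4:ℝ) * (1 + Real.log N) := by positivity
        nlinarith
  · have h8 := tl_tsum hN
    have e : (N:ℝ)^2 * (N:ℝ) ^ (-(7/4):ℝ) = (N:ℝ) ^ (1/4:ℝ) := by
      rw [← Real.rpow_natCast, ← Real.rpow_add hN0]; norm_num
    calc (1/2) * (1 / Real.pi) ^ n * (N:ℝ)^2 * ∑' m, tl N m ≤
        (1/2) * (1 / Real.pi) ^ n * (N:ℝ)^2 * (24 * (1 + Real.log N) * (N:ℝ) ^ (-(7/4):ℝ)) := by gcongr
      _ = 12 * (1 / Real.pi) ^ n * ((N:ℝ)^2 * (N:ℝ) ^ (-(7/4):ℝ)) * (1 + Real.log N) := by ring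
      _ = _ := by rw [e]
  
end Pool.Agent.H383.OM
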