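import Mathlib
import Pool.Agent.H383.OM.E

open MeasureTheory Filter Topology
open Pool.Agent.H387R2.Vor
open Pool.Agent.H383.Div (Ed')

namespace Pool.Agent.H383.OM

/-- the number of averages -/
noncomputable def nN (N : ℕ) : ℕ := 2 * ⌈Real.log (1 + Real.log N)⌉₊ + 8

/-- the quality of the near period -/
noncomputable def qN (N : ℕ) : ℕ := ⌈400 * (nN N : ℝ) * (1 + Real.log N)⌉₊

lemma nN_ge (N : ℕ) : 8 ≤ nN N := by unfold nN; omega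

lemma nN_low {N : ℕ} (hN : 1 ≤ N) : 1 + Real.log N ≤ Real.exp (((nN N : ℝ) - 8) / 2) := by
  have hL := one_add_log_pos hN
  have h1 : Real.log (1 + Real.log N) ≤ ((nN N : ℝ) - 8) / 2 := by
    have := Nat.le_ceil (Real.log (1 + Real.log N))
    unfold nN
    push_cast
    linarith
  rwa [Real.log_le_iff_le_exp (by linarith)] at h1

lemma nN_up {N : ℕ} (hN : 1 ≤ N) : (nN N : ℝ) ≤ 2 * Real.log (1 + Real.log N) + 10 := by
  have hL := one_add_log_pos hN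
  have h0 : 0 ≤ Real.log (1 + Real.log N) := Real.log_nonneg hL
  have := Nat.ceil_lt_add_one h0
  unfold nN
  push_cast
  linarith

lemma nN_up' {N : ℕ} (hN : 1 ≤ N) : (nN N : ℝ) ≤ 2 * Real.log N + 10 := by
  have hL := one_add_log_pos hN
  have := nN_up hN
  have h1 := Real.log_le_sub_one_of_pos (by linarith : 0 < 1 + Real.log N)
  linarith

lemma tendsto_loglog : Tendsto (fun N : ℕ => Real.log (1 + Real.log N)) atTop atTop := by
  apply Real.tendsto_log_atTop.comp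
  apply tendsto_atTop_add_const_left
  exact Real.tendsto_log_atTop.comp tendsto_natCast_atTop_atTop

lemma nN_tendsto : Tendsto nN atTop atTop := by
  rw [← tendsto_natCast_atTop_iff (R := ℝ)]
  apply tendsto_atTop_mono' atTop _ tendsto_loglog
  filter_upwards [eventually_ge_atTop 1] with N hN
  have hL := one_add_log_pos hN
  have h0 : 0 ≤ Real.log (1 + Real.log N) := Real.log_nonneg hL
  have := Nat.le_ceil (Real.log (1 + Real.log N))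
  unfold nN
  push_cast
  linarith

lemma rpow_half (n : ℕ) (hn : 1 ≤ n) : (1:ℝ)/n ≤ (n:ℝ) ^ (-(1/2):ℝ) := by
  have hn' : (1:ℝ) ≤ n := by exact_mod_cast hn
  have : (1:ℝ)/n = (n:ℝ) ^ (-1:ℝ) := by rw [Real.rpow_neg_one]; simp
  rw [this]
  exact Real.rpow_le_rpow_of_exponent_le hn' (by norm_num)

lemma ev1 : ∀ᶠ N : ℕ in atTop, 12 * (1 / Real.pi) ^ (nN N) * (1 + Real.log N) ≤ (1/20) * (nN N : ℝ) ^ (-(1/2):ℝ) := by
  have h1 : Tendsto (fun n : ℕ => (n:ℝ) * (11/20:ℝ)^n) atTop (𝓝 0) :=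
    tendsto_self_mul_const_pow_of_lt_one (by norm_num) (by norm_num)
  have h2 := (h1.comp nN_tendsto).eventually (gt_mem_nhds (show (0:ℝ) < 1/240 by norm_num))
  filter_upwards [h2, eventually_ge_atTop 1] with N h3 hN
  simp only [Function.comp_apply] at h3
  set n := nN N with hn
  have hn8 : 8 ≤ n := nN_ge N
  have hn0 : (0:ℝ) < n := by exact_mod_cast (by omega : 0 < n)
  have hpi := Real.pi_gt_three
  have hpi0 := Real.pi_pos
  have h4 := nN_low hN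
  rw [← hn] at h4
  have h5 : Real.exp (((n : ℝ) - 8) / 2) ≤ (33/20:ℝ)^n := by
    have e1 : Real.exp (((n : ℝ) - 8) / 2) ≤ Real.exp ((n:ℝ) * (1/2)) := Real.exp_le_exp.mpr (by linarith)
    refine e1.trans ?_
    rw [Real.exp_nat_mul]
    apply pow_le_pow_left₀ (Real.exp_pos _).le
    have e2 : Real.exp (1/2) ^ 2 = Real.exp 1 := by
      rw [← Real.exp_nat_mul]; norm_num
    have e3 := Real.exp_one_lt_d9
    have e4 : Real.exp (1/2) ^ 2 ≤ (33/20)^2 := by rw [e2]; linarith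
    exact (pow_le_pow_iff_left₀ (Real.exp_pos _).le (by norm_num) (by norm_num)).mp e4
  have h6 : (1 / Real.pi) ^ n ≤ (1/3:ℝ)^n := by
    apply pow_le_pow_left₀ (by positivity)
    exact one_div_le_one_div_of_le (by norm_num) hpi.le
  calc 12 * (1 / Real.pi) ^ n * (1 + Real.log N) ≤ 12 * (1/3:ℝ)^n * (33/20:ℝ)^n := by
        have : 0 ≤ 1 + Real.log N := by linarith [one_add_log_pos hN]
        gcongr
        exact h4.trans h5
    _ = 12 * (11/20:ℝ)^n := by rw [mul_assoc, ← mul_pow]; norm_num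
    _ ≤ (1/20) * (1/n) := by
        rw [mul_one_div, le_div_iff₀ hn0]
        nlinarith
    _ ≤ _ := by
        apply mul_le_mul_of_nonneg_left (rpow_half n (by omega)) (by norm_num)

lemma ev2 : ∀ᶠ N : ℕ in atTop, (nN N : ℝ) ≤ (N:ℝ) ^ (1/16:ℝ) := by
  have h1 : ∀ᶠ x : ℝ in atTop, 2 * Real.log x + 10 ≤ x ^ (1/16:ℝ) := by
    have h2 := isLittleO_log_rpow_atTop (r := 1/16) (by norm_num)
    have h3 := h2.bound (c := 1/4) (by norm_num)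
    have h4 : Tendsto (fun x : ℝ => x ^ (1/16:ℝ)) atTop atTop := tendsto_rpow_atTop (by norm_num)
    filter_upwards [h3, h4.eventually_ge_atTop 20, eventually_ge_atTop 1] with x h5 h6 h7
    rw [Real.norm_eq_abs, Real.norm_eq_abs, abs_of_nonneg (Real.log_nonneg h7),
      abs_of_nonneg (by positivity : 0 ≤ x ^ (1/16:ℝ))] at h5
    linarith
  filter_upwards [tendsto_natCast_atTop_atTop.eventually h1, eventually_ge_atTop 1] with N h2 hN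
  exact (nN_up' hN).trans h2

theorem core : ∃ N₁ : ℕ, 1 ≤ N₁ ∧ ∀ N : ℕ, N₁ ≤ N → ∀ T : ℝ, (N:ℝ) + 1 ≤ T →
    ∃ t : ℝ, T - 1 ≤ t ∧ t ≤ (qN N:ℝ)^N * T ∧
      Ed t ≤ -(1/2) * ((N:ℝ)^(1/4:ℝ) * (nN N:ℝ)^(-(1/2):ℝ)) := by
  obtain ⟨CV, hCV, hV⟩ := An_formula
  obtain ⟨C2, hC2, h2⟩ := sum_sub_Qn
  have hbig : ∀ᶠ N : ℕ in atTop, 3 * C2 * (N:ℝ) ^ (1/8:ℝ) + 2 * CV * (N:ℝ) ^ (1/8:ℝ) < (1/20) * (N:ℝ)^(1/4:ℝ) := by
    have h4 : Tendsto (fun x : ℝ => x ^ (1/8:ℝ)) atTop atTop := tendsto_rpow_atTop (by norm_num)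
    filter_upwards [(h4.comp tendsto_natCast_atTop_atTop).eventually_gt_atTop (20 * (3 * C2 + 2 * CV)),
      eventually_ge_atTop 1] with N h5 hN
    simp only [Function.comp_apply] at h5
    have hN0 : (0:ℝ) < N := by exact_mod_cast hN
    have e : (N:ℝ)^(1/4:ℝ) = (N:ℝ)^(1/8:ℝ) * (N:ℝ)^(1/8:ℝ) := by rw [← Real.rpow_add hN0]; norm_num
    rw [e]
    have : 0 < (N:ℝ)^(1/8:ℝ) := by positivity
    nlinarith
  obtain ⟨N₁, hN₁⟩ := eventually_atTop.mp (ev1.and (ev2.and hbig))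
  refine ⟨max N₁ 4, by omega, ?_⟩
  intro N hN T hT
  obtain ⟨hA, hB, hC⟩ := hN₁ N (le_trans (le_max_left _ _) hN)
  have hN4 : 4 ≤ N := le_trans (le_max_right _ _) hN
  have hN1 : 1 ≤ N := by omega
  have hNR : (4:ℝ) ≤ N := by exact_mod_cast hN4
  have hN0 : (0:ℝ) < N := by linarith
  set n := nN N with hn
  have hn8 : 8 ≤ n := nN_ge N
  have hn8' : (8:ℝ) ≤ n := by exact_mod_cast hn8
  have hn0 : (0:ℝ) < n := by linarith
  have hL := one_add_log_pos hN1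
  have hpi := Real.pi_gt_three
  set q := qN N with hq
  have hq1 : 400 * (n:ℝ) * (1 + Real.log N) ≤ q := Nat.le_ceil _
  have hqpos : (1:ℝ) ≤ q := by nlinarith
  have hq1' : 1 ≤ q := by exact_mod_cast hqpos
  obtain ⟨τ, hτ1, hτ2, hτ⟩ := near_period N q hq1' (T := T) (by linarith)
  have hs4 : 2 ≤ √(N:ℝ) := Real.le_sqrt_of_sq_le (by linarith)
  set δ : ℝ := 1 / (2 * √(N:ℝ)) with hδ
  have hδ0 : 0 < δ := by positivity
  have hδ1 : δ ≤ 1/2 := by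
    rw [hδ]; apply one_div_le_one_div_of_le (by norm_num); linarith
  set v : ℝ := n / √(N:ℝ) with hv
  have hvδ : v = 2 * n * δ := by rw [hv, hδ]; field_simp
  have hv0 : 0 < v := by positivity
  have hnδ : n * δ ≤ v := by rw [hvδ]; nlinarith
  have hnδ' : n * δ < v := by rw [hvδ]; nlinarith
  have hv1 : v ≤ 1 := by
    rw [hv, div_le_one (by linarith)]
    calc (n:ℝ) ≤ (N:ℝ) ^ (1/16:ℝ) := hB
      _ ≤ (N:ℝ) ^ (1/2:ℝ) := Real.rpow_le_rpow_of_exponent_le (by linarith) (by norm_num)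
      _ = √(N:ℝ) := (Real.sqrt_eq_rpow _).symm
  set G : ℝ := (N:ℝ)^(1/4:ℝ) * (n:ℝ)^(-(1/2):ℝ) with hG
  have hvG : v ^ (-(1/2):ℝ) = G := by
    rw [hv, hG, Real.div_rpow hn0.le (Real.sqrt_nonneg _), Real.sqrt_eq_rpow, ← Real.rpow_mul hN0.le,
      show (1/2:ℝ) * (-(1/2)) = -(1/4) by norm_num, Real.rpow_neg hN0.le, div_inv_eq_mul]
    ring
  have hG0 : 0 < G := by positivity
  -- main series
  have hS := h2 n δ v (by omega) hδ0 hnδ hv1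
  have hQ := Qn_le (n := n) (by omega) hδ0 hnδ'
  rw [hvG] at hQ
  have hvd : v / δ = 2 * n := by rw [hvδ]; field_simp
  rw [hvd] at hS
  have hS' := (abs_le.mp hS).2
  have hB' : ∑' m, bn δ n v m = (1 / (Real.pi * √2)) * ∑' m : ℕ, dv m * (m : ℝ) ^ (-(3/4) : ℝ) * Cn δ n (√(m : ℝ)) v := by
    unfold bn
    rw [tsum_mul_left]
  have hs2l : (7/5:ℝ) ≤ √2 := Real.le_sqrt_of_sq_le (by norm_num)
  have hs2u : √2 ≤ 10/7 := by rw [Real.sqrt_le_left (by norm_num)]; norm_num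
  have hpi0 : 0 < Real.pi := by linarith
  have hbsum : ∑' m, bn δ n v m ≤ -(7/10) * G + C2 * (1 + 2 * n) := by
    rw [hB']
    have e1 : ∑' m : ℕ, dv m * (m : ℝ) ^ (-(3/4) : ℝ) * Cn δ n (√(m : ℝ)) v ≤ -Real.pi * G + C2 * (1 + 2 * n) := by linarith
    have e2 : (1 / (Real.pi * √2)) * (-Real.pi * G + C2 * (1 + 2 * n)) = -(1/√2) * G + (1 / (Real.pi * √2)) * (C2 * (1 + 2 * n)) := by
      field_simp
    have e3 : 7/10 ≤ 1/√2 := by
      rw [le_div_iff₀ (by positivity)]; linarith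
    have e4 : 1 / (Real.pi * √2) ≤ 1 := by rw [div_le_one (by positivity)]; nlinarith
    have e5 : 0 ≤ C2 * (1 + 2 * (n:ℝ)) := by positivity
    calc _ ≤ (1 / (Real.pi * √2)) * (-Real.pi * G + C2 * (1 + 2 * n)) := by gcongr
      _ = -(1/√2) * G + (1 / (Real.pi * √2)) * (C2 * (1 + 2 * n)) := e2
      _ ≤ _ := by nlinarith
  -- shift
  have hsh := shift_sum hN1 (n := n) (by omega) hq1' (τ := τ) (v := v) hτ
  rw [← hδ] at hsh
  have hsh1 : 20 * (N:ℝ) ^ (1/4:ℝ) * (1 + Real.log N) / q ≤ (1/20) * G := by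
    rw [div_le_iff₀ (by linarith)]
    have e1 := rpow_half n (by omega)
    have e2 : (1:ℝ) ≤ n * (n:ℝ)^(-(1/2):ℝ) := by
      rw [div_le_iff₀ hn0] at e1; linarith
    have e3 : 0 ≤ (N:ℝ) ^ (1/4:ℝ) * (1 + Real.log N) := by positivity
    calc 20 * (N:ℝ) ^ (1/4:ℝ) * (1 + Real.log N) ≤ 20 * ((N:ℝ) ^ (1/4:ℝ) * (1 + Real.log N)) * (n * (n:ℝ)^(-(1/2):ℝ)) := by
          nlinarith
      _ = (1/20) * G * (400 * (n:ℝ) * (1 + Real.log N)) := by rw [hG]; ring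
      _ ≤ _ := by gcongr
  have hsh2 : 12 * (1 / Real.pi) ^ n * (N:ℝ) ^ (1/4:ℝ) * (1 + Real.log N) ≤ (1/20) * G := by
    calc 12 * (1 / Real.pi) ^ n * (N:ℝ) ^ (1/4:ℝ) * (1 + Real.log N) =
        (12 * (1 / Real.pi) ^ n * (1 + Real.log N)) * (N:ℝ) ^ (1/4:ℝ) := by ring
      _ ≤ ((1/20) * (n : ℝ) ^ (-(1/2):ℝ)) * (N:ℝ) ^ (1/4:ℝ) := by gcongr
      _ = _ := by rw [hG]; ring
  -- Voronoi error
  have hR1 : (N:ℝ) ≤ τ - v := by linarith
  have hRR : 1 ≤ τ - v := by linarith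
  have hVe := hV n (τ - v) δ (by omega) hRR hδ0 hδ1
  have hVe2 : (τ - v) ^ (-(12 / 25) : ℝ) * δ ^ (-(13 / 25) : ℝ) ≤ 2 := by
    have e1 : (τ - v) ^ (-(12 / 25) : ℝ) ≤ (N:ℝ) ^ (-(12 / 25) : ℝ) :=
      Real.rpow_le_rpow_of_nonpos hN0 hR1 (by norm_num)
    have e2 : δ ^ (-(13 / 25) : ℝ) = (2:ℝ) ^ (13/25:ℝ) * (N:ℝ) ^ (13/50:ℝ) := by
      rw [hδ, one_div, Real.inv_rpow (by positivity), Real.rpow_neg (by positivity), inv_inv,
        Real.mul_rpow (by norm_num) (Real.sqrt_nonneg _), Real.sqrt_eq_rpow, ← Real.rpow_mul hN0.le]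
      norm_num
    have e3 : (2:ℝ) ^ (13/25:ℝ) ≤ 2 := by
      calc (2:ℝ) ^ (13/25:ℝ) ≤ 2 ^ (1:ℝ) := Real.rpow_le_rpow_of_exponent_le (by norm_num) (by norm_num)
        _ = 2 := Real.rpow_one 2
    rw [e2]
    calc (τ - v) ^ (-(12 / 25) : ℝ) * ((2:ℝ) ^ (13/25:ℝ) * (N:ℝ) ^ (13/50:ℝ)) ≤
        (N:ℝ) ^ (-(12 / 25) : ℝ) * (2 * (N:ℝ) ^ (13/50:ℝ)) := by gcongr
      _ = 2 * ((N:ℝ) ^ (-(12 / 25) : ℝ) * (N:ℝ) ^ (13/50:ℝ)) := by ring
      _ = 2 * (N:ℝ) ^ (-(11 / 50) : ℝ) := by rw [← Real.rpow_add hN0]; norm_num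
      _ ≤ 2 * 1 := by
        apply mul_le_mul_of_nonneg_left _ (by norm_num)
        exact Real.rpow_le_one_of_one_le_of_nonpos (by linarith) (by norm_num)
      _ = 2 := by ring
  have hVe3 : C2 * (1 + 2 * n) + 2 * CV < (1/20) * G := by
    have e0 : 1 ≤ (n:ℝ)^(1/2:ℝ) := Real.one_le_rpow (by linarith) (by norm_num)
    have e1 : (n:ℝ) ^ (1/2:ℝ) * n ≤ (N:ℝ) ^ (1/8:ℝ) := by
      calc (n:ℝ) ^ (1/2:ℝ) * n ≤ (n:ℝ) ^ (1:ℝ) * n := by
            apply mul_le_mul_of_nonneg_right _ hn0.le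
            exact Real.rpow_le_rpow_of_exponent_le (by linarith) (by norm_num)
        _ = n * n := by rw [Real.rpow_one]
        _ ≤ (N:ℝ) ^ (1/16:ℝ) * (N:ℝ) ^ (1/16:ℝ) := by gcongr
        _ = _ := by rw [← Real.rpow_add hN0]; norm_num
    have e2 : (n:ℝ)^(1/2:ℝ) ≤ (N:ℝ) ^ (1/8:ℝ) := by
      refine le_trans ?_ e1
      nlinarith
    have e3 : (C2 * (1 + 2 * n) + 2 * CV) * (n:ℝ)^(1/2:ℝ) < (1/20) * (N:ℝ)^(1/4:ℝ) := by
      refine lt_of_le_of_lt ?_ hC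
      have e4 : (1 + 2 * (n:ℝ)) * (n:ℝ)^(1/2:ℝ) ≤ 3 * (N:ℝ) ^ (1/8:ℝ) := by
        have : (1 + 2 * (n:ℝ)) * (n:ℝ)^(1/2:ℝ) ≤ 3 * ((n:ℝ) ^ (1/2:ℝ) * n) := by nlinarith
        linarith
      calc (C2 * (1 + 2 * n) + 2 * CV) * (n:ℝ)^(1/2:ℝ) = C2 * ((1 + 2 * (n:ℝ)) * (n:ℝ)^(1/2:ℝ)) + 2 * CV * (n:ℝ)^(1/2:ℝ) := by ring
        _ ≤ C2 * (3 * (N:ℝ) ^ (1/8:ℝ)) + 2 * CV * (N:ℝ) ^ (1/8:ℝ) := by gcongr
        _ = _ := by ring
    have e5 : (n:ℝ)^(1/2:ℝ) * (n:ℝ)^(-(1/2):ℝ) = 1 := by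
      rw [← Real.rpow_add hn0]; norm_num
    have e6 : 0 < (n:ℝ)^(-(1/2):ℝ) := by positivity
    calc C2 * (1 + 2 * n) + 2 * CV = ((C2 * (1 + 2 * n) + 2 * CV) * (n:ℝ)^(1/2:ℝ)) * (n:ℝ)^(-(1/2):ℝ) := by
          rw [mul_assoc, e5, mul_one]
      _ < ((1/20) * (N:ℝ)^(1/4:ℝ)) * (n:ℝ)^(-(1/2):ℝ) := by gcongr
      _ = _ := by rw [hG]; ring
  have hAn : An δ n (τ - v) < -(1/2) * G := by
    have e1 := (abs_le.mp hVe).2
    have e2 := (abs_le.mp hsh).2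
    have e3 : CV * ((τ - v) ^ (-(12 / 25) : ℝ) * δ ^ (-(13 / 25) : ℝ)) ≤ CV * 2 := by gcongr
    linarith
  -- conclusion
  by_contra hcon
  push Not at hcon
  have hlow : -(1/2) * G ≤ An δ n (τ - v) := by
    apply An_lower hδ0
    intro s hs1 hs2
    have e1 := hcon (τ - v + s) (by linarith) (by linarith)
    unfold Pool.Agent.H383.Div.Ed'
    rw [max_eq_left (by linarith)]
    exact e1.le
  linarith

end Pool.Agent.H383.OM
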