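import Mathlib
import Pool.Agent.H383.OM.F

open MeasureTheory Filter Topology
open Pool.Agent.H387R2.Vor
open Pool.Agent.H383.Div (mt mt_sub Del_eq Ed')

namespace Pool.Agent.H383.OM

/-- from a large negative value at a real point to an integer -/
lemma Del_floor {x : ℝ} (hx : 1 ≤ x) : Del (⌊x⌋₊ : ℝ) ≤ Del x + (Real.log x + 2) := by
  have h1 : (1:ℝ) ≤ (⌊x⌋₊ : ℝ) := by
    have : 1 ≤ ⌊x⌋₊ := Nat.le_floor (by exact_mod_cast hx)
    exact_mod_cast this
  have h2 : (⌊x⌋₊ : ℝ) ≤ x := Nat.floor_le (by linarith)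
  have h3 : x < (⌊x⌋₊ : ℝ) + 1 := Nat.lt_floor_add_one x
  have h4 := mt_sub h1 h2
  have h5 : Dsum (⌊x⌋₊ : ℝ) = Dsum x := by
    unfold Dsum; rw [Nat.floor_natCast]
  have hl : 0 ≤ Real.log x := Real.log_nonneg hx
  rw [Del_eq, Del_eq, h5]
  have h6 : (x - ⌊x⌋₊) * (Real.log x + 2) ≤ 1 * (Real.log x + 2) := by
    apply mul_le_mul_of_nonneg_right (by linarith) (by linarith)
  linarith

lemma tendsto_w : Tendsto (fun l : ℝ => Real.log (Real.log l)) atTop atTop :=
  Real.tendsto_log_atTop.comp Real.tendsto_log_atTop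

/-- the choice of `N` -/
noncomputable def NX (l : ℝ) : ℕ := ⌊l / (16 * Real.log (Real.log l))⌋₊

lemma w_small : ∀ᶠ l : ℝ in atTop, Real.log (Real.log l) ≤ l ^ (1/4:ℝ) := by
  have h2 := isLittleO_log_rpow_atTop (r := 1/4) (by norm_num)
  have h3 := h2.bound (c := 1) (by norm_num)
  filter_upwards [h3, Real.tendsto_log_atTop.eventually_ge_atTop 1, eventually_ge_atTop 1] with x h5 h6 h7
  rw [Real.norm_eq_abs, Real.norm_eq_abs, abs_of_nonneg (Real.log_nonneg h7),
      abs_of_nonneg (by positivity : 0 ≤ x ^ (1/4:ℝ))] at h5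
  have h8 := Real.log_le_sub_one_of_pos (by linarith : 0 < Real.log x)
  linarith

lemma NX_facts : ∀ᶠ l : ℝ in atTop, l / (32 * Real.log (Real.log l)) ≤ (NX l : ℝ) ∧
    (NX l : ℝ) ≤ l / (16 * Real.log (Real.log l)) ∧ 1 ≤ Real.log (Real.log l) := by
  filter_upwards [w_small, tendsto_w.eventually_ge_atTop 1, eventually_ge_atTop 10000] with l h1 h2 h3
  set w := Real.log (Real.log l) with hw
  have hl0 : 0 < l := by linarith
  have h4 : 1 ≤ l / (32 * w) := by
    rw [le_div_iff₀ (by positivity), one_mul]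
    have e1 : (l ^ (1/4:ℝ)) ^ 4 = l := by
      rw [← Real.rpow_natCast, ← Real.rpow_mul hl0.le]; norm_num
    have e2 : (10:ℝ) ≤ l ^ (1/4:ℝ) := by
      have : (10000:ℝ) ^ (1/4:ℝ) ≤ l ^ (1/4:ℝ) := Real.rpow_le_rpow (by norm_num) h3 (by norm_num)
      have e3 : (10000:ℝ) ^ (1/4:ℝ) = 10 := by
        rw [show (10000:ℝ) = 10 ^ (4:ℝ) by norm_num, ← Real.rpow_mul (by norm_num)]; norm_num
      linarith
    set y := l ^ (1/4:ℝ) with hy
    have e4 : y ^ 4 = y * y^3 := by ring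
    have e5 : (32:ℝ) ≤ y^3 := by
      calc (32:ℝ) ≤ 10^3 := by norm_num
        _ ≤ y^3 := by gcongr
    rw [← e1, e4]
    nlinarith
  have h5 : l / (16 * w) = 2 * (l / (32 * w)) := by field_simp; norm_num
  have h6 := Nat.lt_floor_add_one (l / (16 * w))
  have h7 := Nat.floor_le (show 0 ≤ l / (16 * w) by positivity)
  refine ⟨?_, h7, h2⟩
  unfold NX
  rw [← hw]
  linarith

lemma NX_tendsto : Tendsto NX atTop atTop := by
  rw [← tendsto_natCast_atTop_iff (R := ℝ)]
  have h4 : Tendsto (fun x : ℝ => (1/32) * x ^ (3/4:ℝ)) atTop atTop :=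
    (tendsto_rpow_atTop (by norm_num)).const_mul_atTop (by norm_num)
  apply tendsto_atTop_mono' atTop _ h4
  filter_upwards [NX_facts, w_small, eventually_gt_atTop 0] with l h1 h2 h3
  refine le_trans ?_ h1.1
  have hw := h1.2.2
  rw [le_div_iff₀ (by positivity)]
  have e : l ^ (3/4:ℝ) * l ^ (1/4:ℝ) = l := by rw [← Real.rpow_add h3]; norm_num
  have e2 : 0 < l ^ (3/4:ℝ) := by positivity
  calc (1/32) * l ^ (3/4:ℝ) * (32 * Real.log (Real.log l)) = l ^ (3/4:ℝ) * Real.log (Real.log l) := by ring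
    _ ≤ l ^ (3/4:ℝ) * l ^ (1/4:ℝ) := by gcongr
    _ = l := e

/-- size of `q ^ N` and of `n` -/
lemma params : ∀ᶠ l : ℝ in atTop, (NX l : ℝ) * Real.log (qN (NX l)) ≤ l / 4 - Real.log 2 ∧
    (nN (NX l) : ℝ) ≤ 4 * Real.log (Real.log l) := by
  have hq2 : ∀ᶠ N : ℕ in atTop, 400 * (2 * Real.log (1 + Real.log N) + 10) * (1 + Real.log N) + 1 ≤ (1 + Real.log N) ^ 2 := by
    have h1 : Tendsto (fun N : ℕ => 1 + Real.log N) atTop atTop :=
      tendsto_atTop_add_const_left _ _ (Real.tendsto_log_atTop.comp tendsto_natCast_atTop_atTop)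
    have h2 : ∀ᶠ y : ℝ in atTop, 400 * (2 * Real.log y + 10) * y + 1 ≤ y ^ 2 := by
      have h3 := (Real.isLittleO_log_id_atTop).bound (c := 1/1600) (by norm_num)
      filter_upwards [h3, eventually_ge_atTop 10000] with y h5 h6
      rw [Real.norm_eq_abs, Real.norm_eq_abs, abs_of_nonneg (Real.log_nonneg (by linarith)), id,
        abs_of_nonneg (by linarith : 0 ≤ y)] at h5
      nlinarith
    exact h1.eventually h2
  have e1 := NX_tendsto.eventually (hq2.and (eventually_ge_atTop 1))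
  filter_upwards [e1, NX_facts, tendsto_w.eventually_ge_atTop 100, Real.tendsto_log_atTop.eventually_ge_atTop 10,
    eventually_ge_atTop 10000] with l h1 h2 h3 h4 h5
  obtain ⟨h1a, h1b⟩ := h1
  obtain ⟨h2a, h2b, h2c⟩ := h2
  set N := NX l with hN
  set w := Real.log (Real.log l) with hw
  have hl0 : 0 < l := by linarith
  have hL := one_add_log_pos h1b
  have hN0 : (0:ℝ) < N := by exact_mod_cast h1b
  have hNl : (N:ℝ) ≤ l := by
    refine h2b.trans (div_le_self hl0.le (by linarith))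
  have hlogN : 1 + Real.log N ≤ 2 * Real.log l := by
    have := Real.log_le_log hN0 hNl
    linarith
  have hll : Real.log (1 + Real.log N) ≤ w + 1 := by
    have a1 := Real.log_le_log (by linarith : 0 < 1 + Real.log N) hlogN
    rw [Real.log_mul (by norm_num) (by linarith)] at a1
    have a2 : Real.log 2 ≤ 1 := by
      have := Real.log_two_lt_d9; linarith
    linarith
  constructor
  · have b1 : (qN N : ℝ) ≤ (1 + Real.log N) ^ 2 := by
      have b2 : (0:ℝ) ≤ 400 * (nN N : ℝ) * (1 + Real.log N) := by positivity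
      have b3 := Nat.ceil_lt_add_one b2
      have b4 := nN_up h1b
      have b5 : 400 * (nN N : ℝ) * (1 + Real.log N) ≤ 400 * (2 * Real.log (1 + Real.log N) + 10) * (1 + Real.log N) := by gcongr
      unfold qN
      linarith
    have b6 : (0:ℝ) < qN N := by
      have b2 : (0:ℝ) < 400 * (nN N : ℝ) * (1 + Real.log N) := by
        have : (8:ℝ) ≤ nN N := by exact_mod_cast nN_ge N
        positivity
      have := Nat.le_ceil (400 * (nN N : ℝ) * (1 + Real.log N))
      unfold qN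
      linarith
    have b7 : Real.log (qN N) ≤ 2 * (w + 1) := by
      have := Real.log_le_log b6 b1
      rw [Real.log_pow] at this
      push_cast at this
      linarith
    have b8 : Real.log 2 ≤ 1 := by
      have := Real.log_two_lt_d9; linarith
    calc (N:ℝ) * Real.log (qN N) ≤ (N:ℝ) * (2 * (w + 1)) := by gcongr
      _ ≤ (l / (16 * w)) * (3 * w) := by
          apply mul_le_mul h2b (by linarith) (by linarith) (by positivity)
      _ = 3 * l / 16 := by field_simp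
      _ ≤ l / 4 - Real.log 2 := by linarith
  · have := nN_up h1b
    linarith

theorem omega_minus : ∃ c : ℝ, 0 < c ∧ ∀ᶠ X : ℝ in atTop, ∃ n : ℕ, √X ≤ n ∧ (n:ℝ) ≤ X ∧
    Del n ≤ -c * ((n:ℝ) * Real.log n) ^ (1/4:ℝ) * (Real.log (Real.log (Real.log n))) ^ (-(3/4):ℝ) := by
  obtain ⟨N₁, hN₁, hcore⟩ := core
  set c1 : ℝ := (1/2) * ((1/32:ℝ) ^ (1/4:ℝ) * 4 ^ (-(1/2):ℝ)) with hc1
  have hc10 : 0 < c1 := by positivity
  refine ⟨c1/4, by positivity, ?_⟩
  have hev : ∀ᶠ l : ℝ in atTop, N₁ ≤ NX l ∧ (l / (32 * Real.log (Real.log l)) ≤ (NX l : ℝ) ∧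
    (NX l : ℝ) ≤ l / (16 * Real.log (Real.log l)) ∧ 1 ≤ Real.log (Real.log l)) ∧
    ((NX l : ℝ) * Real.log (qN (NX l)) ≤ l / 4 - Real.log 2 ∧ (nN (NX l) : ℝ) ≤ 4 * Real.log (Real.log l)) ∧
    Real.log (Real.log l) ≤ l ^ (1/4:ℝ) ∧ 2 ≤ Real.log (Real.log (l/2)) ∧
    Real.log (Real.log l) / 2 ≤ Real.log (Real.log (l/2)) ∧
    l + 1 ≤ Real.exp (l/4) ∧ 2 * (l + 2) ≤ c1 * Real.exp (l/16) := by
    have a1 : ∀ᶠ l : ℝ in atTop, 2 ≤ Real.log (Real.log (l/2)) :=
      (tendsto_w.comp (tendsto_id.atTop_div_const (by norm_num : (0:ℝ) < 2))).eventually_ge_atTop 2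
    have a2 : ∀ᶠ l : ℝ in atTop, Real.log (Real.log l) / 2 ≤ Real.log (Real.log (l/2)) := by
      filter_upwards [tendsto_w.eventually_ge_atTop 2, Real.tendsto_log_atTop.eventually_ge_atTop 4,
        eventually_gt_atTop 0] with l b1 b2 b3
      have b4 : Real.log l / 2 ≤ Real.log (l/2) := by
        rw [Real.log_div b3.ne' (by norm_num)]
        have := Real.log_two_lt_d9
        linarith
      have b5 : Real.log (Real.log l / 2) ≤ Real.log (Real.log (l/2)) :=
        Real.log_le_log (by linarith) b4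
      rw [Real.log_div (by linarith) (by norm_num)] at b5
      have := Real.log_two_lt_d9
      linarith
    have a3 : ∀ᶠ l : ℝ in atTop, l + 1 ≤ Real.exp (l/4) := by
      have b1 := (Real.isLittleO_pow_exp_atTop (n := 1)).bound (c := 1/8) (by norm_num)
      have b2 : Tendsto (fun l : ℝ => l/4) atTop atTop := tendsto_id.atTop_div_const (by norm_num)
      filter_upwards [b2.eventually b1, eventually_ge_atTop 10] with l b3 b4
      rw [pow_one, Real.norm_eq_abs, abs_of_nonneg (by linarith), Real.norm_eq_abs, abs_of_pos (Real.exp_pos _)] at b3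
      linarith
    have a4 : ∀ᶠ l : ℝ in atTop, 2 * (l + 2) ≤ c1 * Real.exp (l/16) := by
      have b1 := (Real.isLittleO_pow_exp_atTop (n := 1)).bound (c := c1/64) (by positivity)
      have b2 : Tendsto (fun l : ℝ => l/16) atTop atTop := tendsto_id.atTop_div_const (by norm_num)
      filter_upwards [b2.eventually b1, eventually_ge_atTop 10] with l b3 b4
      rw [pow_one, Real.norm_eq_abs, abs_of_nonneg (by linarith), Real.norm_eq_abs, abs_of_pos (Real.exp_pos _)] at b3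
      nlinarith
    filter_upwards [NX_tendsto.eventually_ge_atTop N₁, NX_facts, params, w_small, a1, a2, a3, a4] with l b1 b2 b3 b4 b5 b6 b7 b8
    exact ⟨b1, b2, b3, b4, b5, b6, b7, b8⟩
  filter_upwards [Real.tendsto_log_atTop.eventually hev, eventually_ge_atTop (10000:ℝ)] with X hX hX0
  obtain ⟨h1, ⟨h2a, h2b, h2c⟩, ⟨h3a, h3b⟩, h4, h5, h6, h7, h8⟩ := hX
  set l := Real.log X with hl
  set N := NX l with hN
  set w := Real.log (Real.log l) with hw
  have hXpos : 0 < X := by linarith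
  have hXe : Real.exp l = X := Real.exp_log hXpos
  have hN1 : 1 ≤ N := hN₁.trans h1
  have hN0 : (0:ℝ) < N := by exact_mod_cast hN1
  have hl9 : 9 ≤ l := by
    have a1 : Real.log 10000 ≤ l := Real.log_le_log (by norm_num) hX0
    have a2 : (9:ℝ) ≤ Real.log 10000 := by
      rw [Real.le_log_iff_exp_le (by norm_num)]
      have e := Real.exp_one_lt_d9
      calc Real.exp 9 = Real.exp 1 ^ 9 := by rw [← Real.exp_nat_mul]; norm_num
        _ ≤ (2.7182818286)^9 := by gcongr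
        _ ≤ 10000 := by norm_num
    linarith
  have hNl : (N:ℝ) ≤ l := h2b.trans (div_le_self (by linarith) (by linarith))
  -- T
  set T : ℝ := 2 * Real.exp (l/4) with hT
  have hT1 : (N:ℝ) + 1 ≤ T := by linarith
  obtain ⟨t, ht1, ht2, ht3⟩ := hcore N h1 T hT1
  have he4 : 10 ≤ Real.exp (l/4) := by linarith
  have ht0 : Real.exp (l/4) + 1 ≤ t := by linarith
  have htpos : 0 < t := by linarith
  have hX4 : Real.exp (l/4) ^ 2 = √X := by
    rw [← Real.exp_nat_mul, Real.sqrt_eq_rpow, ← hXe, ← Real.exp_mul]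
    congr 1; push_cast; ring
  have hX2 : √X ^ 2 = X := Real.sq_sqrt hXpos.le
  have htX : t ≤ √X := by
    refine ht2.trans ?_
    have hq0 : (0:ℝ) < qN N := by
      have b2 : (0:ℝ) < 400 * (nN N : ℝ) * (1 + Real.log N) := by
        have : (8:ℝ) ≤ nN N := by exact_mod_cast nN_ge N
        have := one_add_log_pos hN1
        positivity
      have := Nat.le_ceil (400 * (nN N : ℝ) * (1 + Real.log N))
      unfold qN
      linarith
    have e1 : (qN N:ℝ)^N ≤ Real.exp (l/4) / 2 := by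
      rw [← Real.exp_log hq0, ← Real.exp_nat_mul]
      have e2 : Real.exp (l/4) / 2 = Real.exp (l/4 - Real.log 2) := by
        rw [Real.exp_sub, Real.exp_log (by norm_num)]
      rw [e2]
      exact Real.exp_le_exp.mpr h3a
    calc (qN N:ℝ)^N * T ≤ (Real.exp (l/4) / 2) * (2 * Real.exp (l/4)) := by gcongr
      _ = Real.exp (l/4) ^ 2 := by ring
      _ = √X := hX4
  -- the size
  set G : ℝ := (N:ℝ)^(1/4:ℝ) * (nN N:ℝ)^(-(1/2):ℝ) with hG
  have hw0 : 0 < w := by linarith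
  have hGl : c1 * (l ^ (1/4:ℝ) * w ^ (-(3/4):ℝ)) ≤ (1/2) * G := by
    have e1 : (l / (32 * w)) ^ (1/4:ℝ) ≤ (N:ℝ)^(1/4:ℝ) :=
      Real.rpow_le_rpow (by positivity) h2a (by norm_num)
    have hn0 : (0:ℝ) < nN N := by
      have : (8:ℝ) ≤ nN N := by exact_mod_cast nN_ge N
      linarith
    have e2 : (4 * w) ^ (-(1/2):ℝ) ≤ (nN N:ℝ)^(-(1/2):ℝ) :=
      Real.rpow_le_rpow_of_nonpos hn0 h3b (by norm_num)
    have e3 : (l / (32 * w)) ^ (1/4:ℝ) = (1/32:ℝ)^(1/4:ℝ) * l ^ (1/4:ℝ) * w ^ (-(1/4):ℝ) := by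
      rw [show l / (32 * w) = (1/32) * l * w⁻¹ by field_simp, Real.mul_rpow (by positivity) (by positivity),
        Real.mul_rpow (by positivity) (by positivity), Real.inv_rpow hw0.le, Real.rpow_neg hw0.le]
    have e4 : (4 * w) ^ (-(1/2):ℝ) = 4 ^ (-(1/2):ℝ) * w ^ (-(1/2):ℝ) := Real.mul_rpow (by norm_num) hw0.le
    have e5 : w ^ (-(1/4):ℝ) * w ^ (-(1/2):ℝ) = w ^ (-(3/4):ℝ) := by
      rw [← Real.rpow_add hw0]; norm_num
    have e6 : c1 * (l ^ (1/4:ℝ) * w ^ (-(3/4):ℝ)) = (1/2) * ((l / (32 * w)) ^ (1/4:ℝ) * (4 * w) ^ (-(1/2):ℝ)) := by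
      rw [e3, e4, hc1, ← e5]; ring
    rw [e6, hG]
    gcongr
  have hst : 0 < √t := Real.sqrt_pos.mpr htpos
  have hDel : Del (t^2) ≤ -(c1 * (l ^ (1/4:ℝ) * w ^ (-(3/4):ℝ))) * √t := by
    have e1 : Del (t^2) = Ed t * √t := by unfold Ed; field_simp
    rw [e1]
    apply mul_le_mul_of_nonneg_right _ hst.le
    linarith
  -- the integer
  have hx1 : 1 ≤ t^2 := by nlinarith
  have hxX : t^2 ≤ X := by rw [← hX2]; gcongr
  have hxl : √X + 1 ≤ t^2 := by
    rw [← hX4]; nlinarith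
  refine ⟨⌊t^2⌋₊, ?_, ?_, ?_⟩
  · have := Nat.lt_floor_add_one (t^2)
    linarith
  · exact (Nat.floor_le (by positivity)).trans hxX
  set n := ⌊t^2⌋₊ with hn
  have hnl : √X ≤ n := by
    have := Nat.lt_floor_add_one (t^2)
    linarith
  have hnu : (n:ℝ) ≤ t^2 := Nat.floor_le (by positivity)
  have hnX : (n:ℝ) ≤ X := hnu.trans hxX
  have hsX : 1 ≤ √X := by rw [← hX4]; nlinarith
  have hn0 : (0:ℝ) < n := by linarith
  have hlogn : Real.log n ≤ l := Real.log_le_log hn0 hnX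
  have hlogn2 : l / 2 ≤ Real.log n := by
    have := Real.log_le_log (by linarith) hnl
    rwa [Real.log_sqrt hXpos.le] at this
  have hl2pos : 0 < l/2 := by linarith
  have hll2 : 0 < Real.log (l/2) := by
    by_contra hcon
    push Not at hcon
    have e1 : Real.log (l/2) = 0 ∨ Real.log (l/2) < 0 := by
      rcases lt_or_eq_of_le hcon with h | h
      · right; exact h
      · left; exact h
    have e2 : 0 ≤ Real.log (l/2) := Real.log_nonneg (by linarith)
    have e3 : Real.log (l/2) = 0 := le_antisymm hcon e2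
    rw [e3, Real.log_zero] at h5
    linarith
  have hw3 : w / 2 ≤ Real.log (Real.log (Real.log n)) := by
    refine h6.trans ?_
    apply Real.log_le_log hll2
    apply Real.log_le_log hl2pos hlogn2
  have hw3pos : 0 < Real.log (Real.log (Real.log n)) := by linarith
  have hfin1 : ((n:ℝ) * Real.log n) ^ (1/4:ℝ) ≤ √t * l ^ (1/4:ℝ) := by
    have e1 : √t = (t^2) ^ (1/4:ℝ) := by
      rw [Real.sqrt_eq_rpow, ← Real.rpow_natCast, ← Real.rpow_mul htpos.le]; norm_num
    rw [e1, ← Real.mul_rpow (by positivity) (by linarith)]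
    apply Real.rpow_le_rpow _ _ (by norm_num)
    · apply mul_nonneg hn0.le; linarith
    · apply mul_le_mul hnu hlogn (by linarith) (by positivity)
  have hfin2 : (Real.log (Real.log (Real.log n))) ^ (-(3/4):ℝ) ≤ 2 * w ^ (-(3/4):ℝ) := by
    calc (Real.log (Real.log (Real.log n))) ^ (-(3/4):ℝ) ≤ (w/2) ^ (-(3/4):ℝ) :=
          Real.rpow_le_rpow_of_nonpos (by linarith) hw3 (by norm_num)
      _ = w ^ (-(3/4):ℝ) * (2:ℝ)^(3/4:ℝ) := by
          rw [div_eq_mul_inv, Real.mul_rpow hw0.le (by norm_num), Real.inv_rpow (by norm_num),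
            Real.rpow_neg (by norm_num : (0:ℝ) ≤ 2), inv_inv]
      _ ≤ w ^ (-(3/4):ℝ) * 2 := by
          apply mul_le_mul_of_nonneg_left _ (by positivity)
          calc (2:ℝ)^(3/4:ℝ) ≤ 2 ^ (1:ℝ) := Real.rpow_le_rpow_of_exponent_le (by norm_num) (by norm_num)
            _ = 2 := Real.rpow_one 2
      _ = _ := by ring
  have hfl := Del_floor hx1
  rw [← hn] at hfl
  have hlogx : Real.log (t^2) ≤ l := Real.log_le_log (by positivity) hxX
  -- the log is small
  have hsmall : l + 2 ≤ (1/2) * (c1 * (l ^ (1/4:ℝ) * w ^ (-(3/4):ℝ))) * √t := by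
    have e1 : 1 ≤ l ^ (1/4:ℝ) * w ^ (-(3/4):ℝ) * Real.exp (l/16) := by
      have a1 : w ^ (3/4:ℝ) ≤ l ^ (1/4:ℝ) * Real.exp (l/16) := by
        have a2 : w ^ (3/4:ℝ) ≤ w ^ (1:ℝ) := Real.rpow_le_rpow_of_exponent_le h2c (by norm_num)
        rw [Real.rpow_one] at a2
        have a3 : 1 ≤ Real.exp (l/16) := Real.one_le_exp (by linarith)
        have a4 : 0 ≤ l ^ (1/4:ℝ) := by positivity
        nlinarith
      rw [Real.rpow_neg hw0.le]
      have a5 : 0 < w ^ (3/4:ℝ) := by positivity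
      rw [show l ^ (1/4:ℝ) * (w ^ (3/4:ℝ))⁻¹ * Real.exp (l/16) = (l ^ (1/4:ℝ) * Real.exp (l/16)) / w ^ (3/4:ℝ) by
        field_simp, le_div_iff₀ a5, one_mul]
      exact a1
    have e2 : Real.exp (l/8) ≤ √t := by
      apply Real.le_sqrt_of_sq_le
      rw [← Real.exp_nat_mul]
      calc Real.exp ((2:ℕ) * (l/8)) = Real.exp (l/4) := by congr 1; push_cast; ring
        _ ≤ t := by linarith
    have e3 : Real.exp (l/8) = Real.exp (l/16) * Real.exp (l/16) := by
      rw [← Real.exp_add]; congr 1; ring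
    have hep : 0 < Real.exp (l/16) := Real.exp_pos _
    calc l + 2 ≤ (1/2) * (c1 * Real.exp (l/16)) := by linarith
      _ ≤ (1/2) * (c1 * Real.exp (l/16)) * (l ^ (1/4:ℝ) * w ^ (-(3/4):ℝ) * Real.exp (l/16)) := by
          apply le_mul_of_one_le_right (by positivity) e1
      _ = (1/2) * (c1 * (l ^ (1/4:ℝ) * w ^ (-(3/4):ℝ))) * (Real.exp (l/16) * Real.exp (l/16)) := by ring
      _ ≤ _ := by rw [← e3]; gcongr
  have hgoal : Del n ≤ -(1/2) * (c1 * (l ^ (1/4:ℝ) * w ^ (-(3/4):ℝ))) * √t := by linarith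
  refine hgoal.trans ?_
  have e1 : ((n:ℝ) * Real.log n) ^ (1/4:ℝ) * (Real.log (Real.log (Real.log n))) ^ (-(3/4):ℝ) ≤
      (√t * l ^ (1/4:ℝ)) * (2 * w ^ (-(3/4):ℝ)) := by
    apply mul_le_mul hfin1 hfin2 (by positivity) (by positivity)
  have e2 := mul_le_mul_of_nonneg_left e1 (by positivity : 0 ≤ c1/4)
  calc _ = -((c1/4) * ((√t * l ^ (1/4:ℝ)) * (2 * w ^ (-(3/4):ℝ)))) := by ring
    _ ≤ -((c1/4) * (((n:ℝ) * Real.log n) ^ (1/4:ℝ) * (Real.log (Real.log (Real.log n))) ^ (-(3/4):ℝ))) := by linarith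
    _ = _ := by ring

end Pool.Agent.H383.OM
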